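import Pool.Agent.H932.L.Main2

/-!
# The set of the lines which meet a line of large gap is closed
-/

open MvPolynomial H960VB H960VB.Bundle2 Y208PT Pool.Agent.H106R3.VB H932V H932W
open scoped ComplexOrder

namespace H932L

variable {n : ℕ}

/-- `E(j)` has a section on the line through `y` and `w` -/
def Big (E : Bundle2 n) (j : ℤ) (y w : Fin (n + 1) → ℂ) : Prop :=
  ∃ f : Idx E.β j → ℂ, f ≠ 0 ∧ Kr E j y w f

theorem big_iff (E : Bundle2 n) (j : ℤ) (y w : Fin (n + 1) → ℂ) : Big E j y w ↔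
    ∀ ρ : Idx E.β j → Idx E.γ j, eval (Sum.elim y w) ((fam2 E j).submatrix ρ id).det = 0 := by
  classical
  have key : ∀ ρ : Idx E.β j → Idx E.γ j, eval (Sum.elim y w) ((fam2 E j).submatrix ρ id).det =
      ((evm (fam2 E j) (Sum.elim y w)).submatrix ρ id).det := by
    intro ρ
    rw [RingHom.map_det]
    rfl
  constructor
  · rintro ⟨f, hf0, hf⟩ ρ
    rw [key]
    exact td_minor_zero _ f hf0 hf ρ
  · intro h
    obtain ⟨f, hf0, hf⟩ := td_maxmin (evm (fam2 E j) (Sum.elim y w)) (fun ρ => by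
      rw [← key]
      exact h ρ)
    exact ⟨f, hf0, hf⟩

theorem big_of_type (E : Bundle2 n) {j : ℤ} {y w : Fin (n + 1) → ℂ}
    (h : LinearIndependent ℂ ![y, w]) {p q : ℤ} (hpq : E.SplitsOn y w p q)
    (h1 : 0 ≤ p + j ∨ 0 ≤ q + j) : Big E j y w := by
  have h2 := finrank_fam2 E h j hpq
  have h3 : 0 < Module.finrank ℂ (LinearMap.ker (Matrix.mulVecLin
      (evm (fam2 E j) (Sum.elim y w)))) := by
    rw [h2]
    omega
  rw [Module.finrank_pos_iff_exists_ne_zero] at h3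
  obtain ⟨⟨f, hf⟩, hf0⟩ := h3
  exact ⟨f, fun h0 => hf0 (Subtype.ext h0), hf⟩

theorem Big.type {E : Bundle2 n} {j : ℤ} {y w : Fin (n + 1) → ℂ} (hB : Big E j y w)
    (h : LinearIndependent ℂ ![y, w]) {p q : ℤ} (hpq : E.SplitsOn y w p q) :
    0 ≤ p + j ∨ 0 ≤ q + j := by
  obtain ⟨f, hf0, hf⟩ := hB
  have h2 := finrank_fam2 E h j hpq
  have h3 : 0 < Module.finrank ℂ (LinearMap.ker (Matrix.mulVecLin
      (evm (fam2 E j) (Sum.elim y w)))) := by
    rw [Module.finrank_pos_iff_exists_ne_zero]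
    exact ⟨⟨f, hf⟩, fun h0 => hf0 (congrArg Subtype.val h0)⟩
  omega

theorem Big.lin {E : Bundle2 n} {j : ℤ} {y w : Fin (n + 1) → ℂ} (hB : Big E j y w)
    (h : LinearIndependent ℂ ![y, w]) {y' w' : Fin (n + 1) → ℂ}
    (h' : LinearIndependent ℂ ![y', w']) (α β γ δ : ℂ) (h1 : y' = α • y + β • w)
    (h2 : w' = γ • y + δ • w) : Big E j y' w' := by
  obtain ⟨p, q, hpq⟩ := splitsOn_exists E h
  have h3 := hB.type h hpq
  exact big_of_type E h' (SplitsOn.lin hpq α β γ δ h1 h2 h') h3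

/-- orthogonal vectors are linearly independent -/
theorem li_of_orth {P Q : Fin (n + 1) → ℂ} (hP : P ≠ 0) (hQ : Q ≠ 0) (h : star P ⬝ᵥ Q = 0) :
    LinearIndependent ℂ ![P, Q] := by
  rw [LinearIndependent.pair_iff' hP]
  intro c hc
  rw [← hc, dotProduct_smul, smul_eq_mul] at h
  rcases mul_eq_zero.1 h with h1 | h1
  · apply hQ
    rw [← hc, h1, zero_smul]
  · exact hP (dotProduct_star_self_eq_zero.1 h1)

theorem closure_big (E : Bundle2 n) (j : ℤ) {A B : Fin (n + 1) → ℂ} (Q₁ : Fin (n + 1) → ℂ)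
    (hAB : LinearIndependent ℂ ![A, B])
    (hT : ∀ δ : ℝ, 0 < δ → ∃ t : ℝ, 0 < t ∧ t < δ ∧ ∃ (x z : ℂ) (Q : Fin (n + 1) → ℂ),
      LinearIndependent ℂ ![x • A + z • (B + (t : ℂ) • Q₁), Q] ∧
        Big E j (x • A + z • (B + (t : ℂ) • Q₁)) Q) :
    ∃ (x z : ℂ) (Q : Fin (n + 1) → ℂ), LinearIndependent ℂ ![x • A + z • B, Q] ∧
      Big E j (x • A + z • B) Q := by
  classical
  let pt : ℝ × (ℂ × ℂ) × (Fin (n + 1) → ℂ) → Fin (n + 1) → ℂ :=
    fun v => v.2.1.1 • A + v.2.1.2 • (B + (v.1 : ℂ) • Q₁)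
  have hpt : Continuous pt := by
    refine Continuous.add ?_ ?_
    · exact (continuous_fst.comp (continuous_fst.comp continuous_snd)).smul continuous_const
    · refine (continuous_snd.comp (continuous_fst.comp continuous_snd)).smul ?_
      refine continuous_const.add ?_
      exact (Complex.continuous_ofReal.comp continuous_fst).smul continuous_const
  let S : Set (ℝ × (ℂ × ℂ) × (Fin (n + 1) → ℂ)) :=
    {v | v.1 ∈ Set.Icc (0 : ℝ) 1 ∧ ‖v.2.1‖ = 1 ∧ ‖v.2.2‖ = 1 ∧ star (pt v) ⬝ᵥ v.2.2 = 0 ∧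
      ∀ ρ : Idx E.β j → Idx E.γ j,
        eval (Sum.elim (pt v) v.2.2) ((fam2 E j).submatrix ρ id).det = 0}
  have hclosed : IsClosed S := by
    refine IsClosed.inter ?_ (IsClosed.inter ?_ (IsClosed.inter ?_ (IsClosed.inter ?_ ?_)))
    · exact isClosed_Icc.preimage continuous_fst
    · exact isClosed_eq (continuous_norm.comp (continuous_fst.comp continuous_snd)) continuous_const
    · exact isClosed_eq (continuous_norm.comp (continuous_snd.comp continuous_snd)) continuous_const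
    · refine isClosed_eq ?_ continuous_const
      unfold dotProduct
      refine continuous_finsetSum _ fun i _ => ?_
      refine Continuous.mul ?_ ?_
      · exact continuous_star.comp ((continuous_apply i).comp hpt)
      · exact (continuous_apply i).comp (continuous_snd.comp continuous_snd)
    · have h1 : {v : ℝ × (ℂ × ℂ) × (Fin (n + 1) → ℂ) | ∀ ρ : Idx E.β j → Idx E.γ j,
          eval (Sum.elim (pt v) v.2.2) ((fam2 E j).submatrix ρ id).det = 0} =
          ⋂ ρ : Idx E.β j → Idx E.γ j, {v | eval (Sum.elim (pt v) v.2.2)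
            ((fam2 E j).submatrix ρ id).det = 0} := by
        ext v
        simp
      have h2 : IsClosed {v : ℝ × (ℂ × ℂ) × (Fin (n + 1) → ℂ) | ∀ ρ : Idx E.β j → Idx E.γ j,
          eval (Sum.elim (pt v) v.2.2) ((fam2 E j).submatrix ρ id).det = 0} := by
        rw [h1]
        refine isClosed_iInter fun ρ => isClosed_eq ?_ continuous_const
        refine (MvPolynomial.continuous_eval _).comp ?_
        refine continuous_pi fun i => ?_
        rcases i with i | i
        · exact (continuous_apply i).comp hpt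
        · exact (continuous_apply i).comp (continuous_snd.comp continuous_snd)
      exact h2
  have hbdd : Bornology.IsBounded S := by
    rw [isBounded_iff_forall_norm_le]
    refine ⟨1, fun v hv => ?_⟩
    obtain ⟨h1, h2, h3, -⟩ := hv
    rw [Prod.norm_def, Prod.norm_def, h2, h3]
    rw [Real.norm_eq_abs, abs_of_nonneg h1.1]
    simp [h1.2]
  have hcomp : IsCompact S := Metric.isCompact_of_isClosed_isBounded hclosed hbdd
  have himg : IsClosed (Prod.fst '' S) := (hcomp.image continuous_fst).isClosed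
  have h0 : (0 : ℝ) ∈ Prod.fst '' S := by
    rw [← himg.closure_eq, Metric.mem_closure_iff]
    intro δ hδ
    obtain ⟨t, ht0, htδ, x, z, Q, hli, hB⟩ := hT (min δ 1) (lt_min hδ one_pos)
    refine ⟨t, ?_, ?_⟩
    · have hP : x • A + z • (B + (t : ℂ) • Q₁) ≠ 0 := hli.ne_zero 0
      set P := x • A + z • (B + (t : ℂ) • Q₁) with hPdef
      have hxz : ((x, z) : ℂ × ℂ) ≠ 0 := by
        intro h
        rw [Prod.mk_eq_zero] at h
        apply hP
        rw [hPdef, h.1, h.2]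
        simp
      have hr : ‖((x, z) : ℂ × ℂ)‖ ≠ 0 := norm_ne_zero_iff.2 hxz
      set r : ℝ := ‖((x, z) : ℂ × ℂ)‖ with hrdef
      have hPP : star P ⬝ᵥ P ≠ 0 := fun h => hP (dotProduct_star_self_eq_zero.1 h)
      set e : ℂ := (star P ⬝ᵥ Q) / (star P ⬝ᵥ P) with he
      have hQ' : Q - e • P ≠ 0 := by
        intro h
        rw [LinearIndependent.pair_iff' hP] at hli
        exact hli e (sub_eq_zero.1 h).symm
      have hs : ‖Q - e • P‖ ≠ 0 := norm_ne_zero_iff.2 hQ'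
      set s : ℝ := ‖Q - e • P‖ with hsdef
      have hor : star P ⬝ᵥ (Q - e • P) = 0 := by
        rw [dotProduct_sub, dotProduct_smul, smul_eq_mul, he]
        field_simp
        ring
      refine ⟨(t, ((((r : ℂ)⁻¹ * x, (r : ℂ)⁻¹ * z) : ℂ × ℂ), (s : ℂ)⁻¹ • (Q - e • P))), ?_, rfl⟩
      have hp : pt (t, ((((r : ℂ)⁻¹ * x, (r : ℂ)⁻¹ * z) : ℂ × ℂ), (s : ℂ)⁻¹ • (Q - e • P))) =
          (r : ℂ)⁻¹ • P := by
        simp only [pt, hPdef, smul_add, smul_smul, mul_assoc]
      have hor2 : star ((r : ℂ)⁻¹ • P) ⬝ᵥ ((s : ℂ)⁻¹ • (Q - e • P)) = 0 := by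
        rw [star_smul, smul_dotProduct, dotProduct_smul, hor]
        simp
      have hrc : (r : ℂ)⁻¹ ≠ 0 := inv_ne_zero (by exact_mod_cast hr)
      have hsc : (s : ℂ)⁻¹ ≠ 0 := inv_ne_zero (by exact_mod_cast hs)
      refine ⟨⟨ht0.le, (htδ.trans_le (min_le_right _ _)).le⟩, ?_, ?_, ?_, ?_⟩
      · have h1 : (((r : ℂ)⁻¹ * x, (r : ℂ)⁻¹ * z) : ℂ × ℂ) = (r : ℂ)⁻¹ • ((x, z) : ℂ × ℂ) := rfl
        simp only
        rw [h1, norm_smul, ← hrdef, norm_inv, Complex.norm_real, Real.norm_eq_abs,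
          abs_of_nonneg (norm_nonneg _ : (0 : ℝ) ≤ r)]
        exact inv_mul_cancel₀ hr
      · simp only
        rw [norm_smul, ← hsdef, norm_inv, Complex.norm_real, Real.norm_eq_abs,
          abs_of_nonneg (norm_nonneg _ : (0 : ℝ) ≤ s)]
        exact inv_mul_cancel₀ hs
      · rw [hp]
        exact hor2
      · rw [hp]
        have h1 : LinearIndependent ℂ ![(r : ℂ)⁻¹ • P, (s : ℂ)⁻¹ • (Q - e • P)] :=
          li_of_orth (smul_ne_zero hrc hP) (smul_ne_zero hsc hQ') hor2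
        have h2 := hB.lin hli h1 (r : ℂ)⁻¹ 0 (-((s : ℂ)⁻¹ * e)) (s : ℂ)⁻¹ (by simp) (by module)
        exact (big_iff _ _ _ _).1 h2
    · rw [Real.dist_eq, zero_sub, abs_neg, abs_of_pos ht0]
      exact htδ.trans_le (min_le_left _ _)
  obtain ⟨⟨t, ⟨x, z⟩, Q⟩, hv, ht⟩ := h0
  have ht' : t = 0 := ht
  subst ht'
  obtain ⟨-, h2, h3, h4, h5⟩ := hv
  have hp : pt (0, (x, z), Q) = x • A + z • B := by
    simp [pt]
  rw [hp] at h4 h5
  have hP : x • A + z • B ≠ 0 := by
    intro h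
    rw [LinearIndependent.pair_iff] at hAB
    obtain ⟨hx, hz⟩ := hAB x z h
    simp only at h2
    rw [hx, hz] at h2
    simp at h2
  have hQ : Q ≠ 0 := by
    rintro rfl
    simp at h3
  exact ⟨x, z, Q, li_of_orth hP hQ h4, (big_iff _ _ _ _).2 h5⟩

end H932L
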