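import Pool.Agent.H932.L.Curve3

/-!
# The contradiction
-/

open MvPolynomial H960VB H960VB.Bundle2 Y208PT Pool.Agent.H106R3.VB H932V H932W

namespace H932L

namespace DatL

variable {m : ℕ} (T : DatL m)

/-- the point of the curve -/
def pt (y w : Fin (m + 2) → ℂ) : Pt m → ℂ :=
  Sum.elim ![y 0, y 1] (Fin.cons (y 0 * w 1 - y 1 * w 0) (fun k => w k.succ.succ))

theorem xh_pt {y w : Fin (m + 2) → ℂ} (hy : ∀ k : Fin m, y k.succ.succ = 0) : xh (pt y w) = y := by
  ext i
  refine Fin.cases ?_ (fun i => ?_) i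
  · simp [xh, pt]
  · refine Fin.cases ?_ (fun i => ?_) i
    · simp [xh, pt]
    · rw [hy]
      simp [xh]

theorem ww0_pt {y w : Fin (m + 2) → ℂ} (hy : ∀ k : Fin m, y k.succ.succ = 0) :
    ww 0 (pt y w) = y 0 • w + (-w 0) • y := by
  ext i
  refine Fin.cases ?_ (fun i => ?_) i
  · simp [ww, pt]
    ring
  · refine Fin.cases ?_ (fun i => ?_) i
    · simp [ww, pt]
      ring
    · simp [ww, pt, hy]

theorem ww1_pt {y w : Fin (m + 2) → ℂ} (hy : ∀ k : Fin m, y k.succ.succ = 0) :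
    ww 1 (pt y w) = y 1 • w + (-w 1) • y := by
  ext i
  refine Fin.cases ?_ (fun i => ?_) i
  · simp [ww, pt]
    ring
  · refine Fin.cases ?_ (fun i => ?_) i
    · simp [ww, pt]
      ring
    · simp [ww, pt, hy]

theorem pt_mem {y w : Fin (m + 2) → ℂ} (hy : ∀ k : Fin m, y k.succ.succ = 0)
    (h : LinearIndependent ℂ ![y, w]) {c : ℂ} (hc : T.RelH y w c) : pt y w ∈ T.SS := by
  have hla : LA y w := ⟨hy, h⟩
  have hy0 : y ≠ 0 := h.ne_zero 0
  have hx : ∃ i, (pt y w) (Sum.inl i) ≠ 0 := by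
    by_contra hcon
    push Not at hcon
    apply hy0
    ext i
    refine Fin.cases ?_ (fun i => ?_) i
    · exact hcon 0
    · refine Fin.cases ?_ (fun i => ?_) i
      · exact hcon 1
      · exact hy i
  have hgv : T.gv y ≠ 0 := by
    have := T.gv_xh (pt y w) hx
    rwa [xh_pt hy] at this
  refine ⟨hx, ?_, ?_⟩
  · by_contra hcon
    push Not at hcon
    obtain ⟨i, hi⟩ := hx
    have h0 := hcon 0
    have h1 : ∀ k : Fin m, w k.succ.succ = 0 := fun k => hcon k.succ
    rw [LinearIndependent.pair_iff] at h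
    have h2 : y 0 * w 1 - y 1 * w 0 = 0 := h0
    fin_cases i
    · have h3 := h (-w 0) (y 0) (by
        ext l
        refine Fin.cases ?_ (fun l => ?_) l
        · simp
          ring
        · refine Fin.cases ?_ (fun l => ?_) l
          · simp only [Pi.add_apply, Pi.smul_apply, smul_eq_mul, Pi.zero_apply]
            have h4 : -w 0 * y 1 + y 0 * w 1 = 0 := by linear_combination h2
            exact h4
          · simp [hy, h1])
      exact hi h3.2
    · have h3 := h (-w 1) (y 1) (by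
        ext l
        refine Fin.cases ?_ (fun l => ?_) l
        · simp only [Pi.add_apply, Pi.smul_apply, smul_eq_mul, Pi.zero_apply]
          linear_combination -h2
        · refine Fin.cases ?_ (fun l => ?_) l
          · simp only [Pi.add_apply, Pi.smul_apply, smul_eq_mul, Pi.zero_apply]
            have h4 : -w 1 * y 1 + y 1 * w 1 = 0 := by ring
            exact h4
          · simp [hy, h1])
      exact hi h3.2
  · intro i hi
    rw [xh_pt hy]
    fin_cases i
    · have hi' : y 0 ≠ 0 := hi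
      have h1 := T.relH_smul_right hla hc (y 0) hi'
      have h2 := T.relH_shift (li_smul_right hla hi') hgv h1 (-w 0)
      rw [← ww0_pt hy] at h2
      exact ⟨_, h2⟩
    · have hi' : y 1 ≠ 0 := hi
      have h1 := T.relH_smul_right hla hc (y 1) hi'
      have h2 := T.relH_shift (li_smul_right hla hi') hgv h1 (-w 1)
      rw [← ww1_pt hy] at h2
      exact ⟨_, h2⟩

/-- **The contradiction.** -/
theorem contra (hdp : T.dp < 0) (hdq : T.dq ≤ 0)
    (hA : ∀ y w : Fin (m + 2) → ℂ, (∀ k : Fin m, y k.succ.succ = 0) →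
      (∀ k : Fin m, w k.succ.succ = 0) → LinearIndependent ℂ ![y, w] →
      ∀ f, Kr T.E (-T.a) y w f → f = 0)
    (hex : ∀ y : Fin (m + 2) → ℂ, y ≠ 0 → (∀ k : Fin m, y k.succ.succ = 0) →
      ∃ w, LinearIndependent ℂ ![y, w] ∧ ∃ f, Kr T.E (-T.a) y w f ∧ T.E.cf f 0 = T.gv y) :
    False := by
  classical
  obtain ⟨N, hN⟩ : ∃ N : ℕ, T.dq = -(N : ℤ) := ⟨(-T.dq).toNat, by omega⟩
  obtain ⟨P, hP⟩ : ∃ P : ℕ, T.dp = -(P : ℤ) := ⟨(-T.dp).toNat, by omega⟩
  have hP1 : 1 ≤ P := by omega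
  let yt : ℂ → Fin (m + 2) → ℂ := fun t => Fin.cons 1 (Fin.cons t 0)
  have hyt : ∀ t, ∀ k : Fin m, yt t k.succ.succ = 0 := fun t k => by simp [yt]
  have hyt0 : ∀ t, yt t ≠ 0 := by
    intro t h0
    have := congrFun h0 0
    simp [yt] at this
  choose w hw f hf hf0 using fun t => hex (yt t) (hyt0 t) (hyt t)
  have hx : ∀ t, ∃ i, (pt (yt t) (w t)) (Sum.inl i) ≠ 0 := by
    intro t
    refine ⟨0, ?_⟩
    simp [pt, yt]
  have hgv : ∀ t, T.gv (yt t) ≠ 0 := by
    intro t
    have := T.gv_xh (pt (yt t) (w t)) (hx t)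
    rwa [xh_pt (hyt t)] at this
  have hmem : ∀ t, pt (yt t) (w t) ∈ T.SS := by
    intro t
    obtain ⟨c, -, hc⟩ := T.relH_exists ⟨hyt t, hw t⟩ (hgv t) (hf t) (hf0 t)
    exact T.pt_mem (hyt t) (hw t) hc
  have hk : ∀ t, ∃ k : Fin m, (pt (yt t) (w t)) (Sum.inr k.succ) ≠ 0 := by
    intro t
    by_contra hcon
    push Not at hcon
    have h1 := hA (yt t) (w t) (hyt t) (fun k => hcon k) (hw t) (f t) (hf t)
    apply hgv t
    rw [← hf0 t, h1]
    ext i
    simp [cf]
  choose kk hkk using hk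
  obtain ⟨k₀, hk₀⟩ := Finite.exists_infinite_fiber kk
  have hF0 := T.finite_values N P hN hP 0 k₀
  have hF1 := T.finite_values N P hN hP 1 k₀
  set F0 := (fun v => v (Sum.inl 0) ^ P * v (Sum.inr k₀.succ) ^ N * T.HH N hN v) '' T.SS
  set F1 := (fun v => v (Sum.inl 1) ^ P * v (Sum.inr k₀.succ) ^ N * T.HH N hN v) '' T.SS
  have hR : (Set.image2 (fun a b => b / a) F0 F1).Finite := hF0.image2 _ hF1
  have hfin : {t : ℂ | t ^ P ∈ Set.image2 (fun a b => b / a) F0 F1}.Finite := by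
    refine (hR.preimage' (f := fun t : ℂ => t ^ P) ?_)
    intro r _
    refine Set.Finite.subset (((Polynomial.X ^ P - Polynomial.C r : Polynomial ℂ).roots).toFinset
      : Finset ℂ).finite_toSet ?_
    intro t ht
    rw [Finset.mem_coe, Multiset.mem_toFinset, Polynomial.mem_roots
      (Polynomial.X_pow_sub_C_ne_zero (by omega) r)]
    have ht' : t ^ P = r := ht
    simp [ht']
  have hsub : kk ⁻¹' {k₀} ⊆ {t : ℂ | t ^ P ∈ Set.image2 (fun a b => b / a) F0 F1} := by
    intro t ht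
    have hkt : kk t = k₀ := ht
    have h1 := hkk t
    rw [hkt] at h1
    have h2 := T.hRel_ne (hmem t) (T.HH_spec N hN (hmem t))
    refine ⟨_, ⟨_, hmem t, rfl⟩, _, ⟨_, hmem t, rfl⟩, ?_⟩
    have h3 : pt (yt t) (w t) (Sum.inl 0) = 1 := by simp [pt, yt]
    have h4 : pt (yt t) (w t) (Sum.inl 1) = t := rfl
    have h5 : pt (yt t) (w t) (Sum.inr k₀.succ) ^ N ≠ 0 := pow_ne_zero _ h1
    simp only [h3, h4, one_pow, one_mul]
    field_simp
  have hinf : (kk ⁻¹' {k₀}).Infinite := Set.infinite_coe_iff.1 hk₀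
  exact hinf (hfin.subset hsub)

end DatL

end H932L
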