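import Pool.Agent.H932.L.Good2
import Pool.Agent.H932.W.Curve

/-!
# The comparison function on the curve
-/

open MvPolynomial H960VB H960VB.Bundle2 Y208PT Pool.Agent.H106R3.VB H932V H932W

namespace H932L

theorem la_pt {m : ℕ} (v : Pt m → ℂ) (i : Fin 2) (hi : v (Sum.inl i) ≠ 0) (k : Fin (m + 1))
    (hk : v (Sum.inr k) ≠ 0) : LA (xh v) (ww i v) :=
  ⟨fun k => by simp [xh], li_pt v i hi k hk⟩

namespace DatL

variable {m : ℕ} (T : DatL m)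

/-- the cone over the curve -/
def SS : Set (Pt m → ℂ) := {v | (∃ i, v (Sum.inl i) ≠ 0) ∧ (∃ k, v (Sum.inr k) ≠ 0) ∧
  ∀ i : Fin 2, v (Sum.inl i) ≠ 0 → ∃ h, T.RelH (xh v) (ww i v) h}

theorem gv_xh (v : Pt m → ℂ) (h : ∃ i, v (Sum.inl i) ≠ 0) : T.gv (xh v) ≠ 0 := by
  unfold gv
  apply T.hg0
  intro h0
  obtain ⟨i, hi⟩ := h
  apply hi
  fin_cases i
  · have := congrFun h0 0
    simpa [xh] using this
  · have h1 : xh v 1 = 0 := congrFun h0 1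
    exact h1

/-- the value of the comparison function (`N = - T.dq`) -/
def HRel (v : Pt m → ℂ) (N : ℕ) (c : ℂ) : Prop :=
  ∀ i : Fin 2, v (Sum.inl i) ≠ 0 → ∃ h, T.RelH (xh v) (ww i v) h ∧ c = h * v (Sum.inl i) ^ N

theorem hRel_exists {N : ℕ} (hN : T.dq = -(N : ℤ)) {v : Pt m → ℂ} (hv : v ∈ T.SS) :
    ∃ c, T.HRel v N c := by
  obtain ⟨hx, ⟨k, hk⟩, hR⟩ := hv
  have hgv := T.gv_xh v hx
  by_cases h0 : v (Sum.inl 0) = 0
  · obtain ⟨i, hi⟩ := hx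
    have hi1 : i = 1 := by
      fin_cases i
      · exact absurd h0 hi
      · rfl
    subst hi1
    obtain ⟨h, hh⟩ := hR 1 hi
    refine ⟨h * v (Sum.inl 1) ^ N, fun i hi' => ?_⟩
    fin_cases i
    · exact absurd h0 hi'
    · exact ⟨h, hh, rfl⟩
  · obtain ⟨h, hh⟩ := hR 0 h0
    refine ⟨h * v (Sum.inl 0) ^ N, fun i hi' => ?_⟩
    fin_cases i
    · exact ⟨h, hh, rfl⟩
    · have h1 : v (Sum.inl 1) ≠ 0 := hi'
      obtain ⟨h', hh'⟩ := hR 1 h1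
      refine ⟨h', hh', ?_⟩
      have hl0 := la_pt v 0 h0 k hk
      have hl1 := la_pt v 1 h1 k hk
      have e1 := T.relH_smul_right hl0 hh _ h1
      have e2 := T.relH_smul_right hl1 hh' _ h0
      have hl1' : LA (xh v) (v (Sum.inl 0) • ww 1 v) := by
        refine ⟨hl1.1, ?_⟩
        replace hl1 := hl1.2
        rw [LinearIndependent.pair_iff] at hl1 ⊢
        intro s r hsr
        have h1 := hl1 s (r * v (Sum.inl 0)) (by rw [← hsr, smul_smul])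
        exact ⟨h1.1, (mul_eq_zero.1 h1.2).resolve_right h0⟩
      have e3 := T.relH_shift hl1' hgv e2 (v (Sum.inr 0))
      rw [← ww_rel] at e3
      have hl0' : LA (xh v) (v (Sum.inl 1) • ww 0 v) := by
        refine ⟨hl0.1, ?_⟩
        replace hl0 := hl0.2
        rw [LinearIndependent.pair_iff] at hl0 ⊢
        intro s r hsr
        have h2 := hl0 s (r * v (Sum.inl 1)) (by rw [← hsr, smul_smul])
        exact ⟨h2.1, (mul_eq_zero.1 h2.2).resolve_right h1⟩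
      have e4 := T.relH_unique hl0' e1 e3
      rw [hN, zpow_neg, zpow_natCast, zpow_neg, zpow_natCast] at e4
      change h * v (Sum.inl 0) ^ N = h' * v (Sum.inl 1) ^ N
      have h5 : v (Sum.inl 1) ^ N ≠ 0 := pow_ne_zero _ h1
      have h6 : v (Sum.inl 0) ^ N ≠ 0 := pow_ne_zero _ h0
      field_simp at e4
      linear_combination e4

theorem hRel_unique {N : ℕ} {v : Pt m → ℂ} (hv : v ∈ T.SS) {c c' : ℂ} (hc : T.HRel v N c)
    (hc' : T.HRel v N c') : c = c' := by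
  obtain ⟨⟨i, hi⟩, ⟨k, hk⟩, -⟩ := hv
  obtain ⟨h, hh, rfl⟩ := hc i hi
  obtain ⟨h', hh', rfl⟩ := hc' i hi
  rw [T.relH_unique (la_pt v i hi k hk) hh hh']

theorem hRel_ne {N : ℕ} {v : Pt m → ℂ} (hv : v ∈ T.SS) {c : ℂ} (hc : T.HRel v N c) : c ≠ 0 := by
  obtain ⟨⟨i, hi⟩, ⟨k, hk⟩, -⟩ := hv
  obtain ⟨h, hh, rfl⟩ := hc i hi
  exact mul_ne_zero (T.relH_ne (la_pt v i hi k hk) (T.gv_xh v ⟨i, hi⟩) hh) (pow_ne_zero _ hi)

omit T in
theorem li_smul_left {y w : Fin (m + 2) → ℂ} (h : LA y w) {t : ℂ}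
    (ht : t ≠ 0) : LA (t • y) w := by
  refine ⟨fun k => by simp [h.1 k], ?_⟩
  replace h := h.2
  rw [LinearIndependent.pair_iff] at h ⊢
  intro s r hsr
  have h1 := h (s * t) r (by rw [← hsr, smul_smul])
  exact ⟨(mul_eq_zero.1 h1.1).resolve_right ht, h1.2⟩

omit T in
theorem li_smul_right {y w : Fin (m + 2) → ℂ} (h : LA y w) {t : ℂ}
    (ht : t ≠ 0) : LA y (t • w) := by
  refine ⟨h.1, ?_⟩
  replace h := h.2
  rw [LinearIndependent.pair_iff] at h ⊢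
  intro s r hsr
  have h1 := h s (r * t) (by rw [← hsr, smul_smul])
  exact ⟨h1.1, (mul_eq_zero.1 h1.2).resolve_right ht⟩

/-- the first grading -/
theorem act1 {v : Pt m → ℂ} (hv : v ∈ T.SS) (t : ℂ) (ht : t ≠ 0) :
    (fun i => t ^ wt1 m i * v i) ∈ T.SS ∧ ∀ (N : ℕ) (_ : T.dq = -(N : ℤ)) (c : ℂ), T.HRel v N c →
      T.HRel (fun i => t ^ wt1 m i * v i) N (t ^ T.dp * c) := by
  obtain ⟨hx, ⟨k, hk⟩, hR⟩ := hv
  have key : ∀ i : Fin 2, t ^ wt1 m (Sum.inl i) * v (Sum.inl i) ≠ 0 → v (Sum.inl i) ≠ 0 := by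
    intro i hi
    exact right_ne_zero_of_mul hi
  have key2 : ∀ i : Fin 2, v (Sum.inl i) ≠ 0 → ∀ h, T.RelH (xh v) (ww i v) h →
      T.RelH (xh (fun i => t ^ wt1 m i * v i)) (ww i (fun i => t ^ wt1 m i * v i))
        (t ^ T.dq * (t ^ T.dp * h)) := by
    intro i hi h hh
    rw [xh_wt1, ww_wt1]
    have hl := la_pt v i hi k hk
    exact T.relH_smul_right (li_smul_left hl ht) (T.relH_smul_left hl hh t ht) t ht
  refine ⟨⟨?_, ?_, ?_⟩, ?_⟩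
  · obtain ⟨i, hi⟩ := hx
    exact ⟨i, mul_ne_zero (pow_ne_zero _ ht) hi⟩
  · exact ⟨k, mul_ne_zero (pow_ne_zero _ ht) hk⟩
  · intro i hi
    obtain ⟨h, hh⟩ := hR i (key i hi)
    exact ⟨_, key2 i (key i hi) h hh⟩
  · intro N hN c hc i hi
    obtain ⟨h, hh, rfl⟩ := hc i (key i hi)
    refine ⟨_, key2 i (key i hi) h hh, ?_⟩
    have h1 : wt1 m (Sum.inl i) = 1 := rfl
    simp only [h1, pow_one]
    rw [hN, zpow_neg, zpow_natCast, mul_pow]
    have h2 : t ^ N ≠ 0 := pow_ne_zero _ ht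
    field_simp

/-- the second grading -/
theorem act2 {v : Pt m → ℂ} (hv : v ∈ T.SS) (t : ℂ) (ht : t ≠ 0) :
    (fun i => t ^ wt2 m i * v i) ∈ T.SS ∧ ∀ (N : ℕ) (c : ℂ), T.HRel v N c →
      T.HRel (fun i => t ^ wt2 m i * v i) N (t ^ T.dq * c) := by
  obtain ⟨hx, ⟨k, hk⟩, hR⟩ := hv
  have key : ∀ i : Fin 2, t ^ wt2 m (Sum.inl i) * v (Sum.inl i) ≠ 0 → v (Sum.inl i) ≠ 0 := by
    intro i hi
    exact right_ne_zero_of_mul hi
  have key2 : ∀ i : Fin 2, v (Sum.inl i) ≠ 0 → ∀ h, T.RelH (xh v) (ww i v) h →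
      T.RelH (xh (fun i => t ^ wt2 m i * v i)) (ww i (fun i => t ^ wt2 m i * v i))
        (t ^ T.dq * h) := by
    intro i hi h hh
    rw [xh_wt2, ww_wt2]
    exact T.relH_smul_right (la_pt v i hi k hk) hh t ht
  refine ⟨⟨?_, ?_, ?_⟩, ?_⟩
  · obtain ⟨i, hi⟩ := hx
    exact ⟨i, mul_ne_zero (pow_ne_zero _ ht) hi⟩
  · exact ⟨k, mul_ne_zero (pow_ne_zero _ ht) hk⟩
  · intro i hi
    obtain ⟨h, hh⟩ := hR i (key i hi)
    exact ⟨_, key2 i (key i hi) h hh⟩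
  · intro N c hc i hi
    obtain ⟨h, hh, rfl⟩ := hc i (key i hi)
    refine ⟨_, key2 i (key i hi) h hh, ?_⟩
    have h1 : wt2 m (Sum.inl i) = 0 := rfl
    simp only [h1, pow_zero, one_mul]
    ring

end DatL

end H932L
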