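import Pool.Agent.H932.L.Curve2
import Pool.Agent.H932.W.Curve3

/-!
# The contradiction on the curve
-/

open MvPolynomial H960VB H960VB.Bundle2 Y208PT Pool.Agent.H106R3.VB H932V H932W

namespace H932L

namespace DatL

variable {m : ℕ} (T : DatL m)

/-- the system for the section with a value proportional to the prescribed one -/
noncomputable def ZZ : Matrix (Idx T.E.γ (-T.a) ⊕ (Fin T.E.a × Fin T.E.a)) (Idx T.E.β (-T.a))
    (MvPolynomial (V2 (m + 1)) ℂ) :=
  Matrix.fromRows (fam2 T.E (-T.a)) (fun p x =>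
    C (T.E.row (-T.a) 0 (Pi.single p.1 1) x) * T.rhs (Sum.inr p.2) -
    C (T.E.row (-T.a) 0 (Pi.single p.2 1) x) * T.rhs (Sum.inr p.1))

theorem evm_ZZ (y w : Fin (m + 2) → ℂ) (f : Idx T.E.β (-T.a) → ℂ) :
    (evm T.ZZ (Sum.elim y w)).mulVec f =
      Sum.elim ((evm (fam2 T.E (-T.a)) (Sum.elim y w)).mulVec f)
        (fun p => T.E.cf f 0 p.1 * T.gv y p.2 - T.E.cf f 0 p.2 * T.gv y p.1) := by
  funext r
  rcases r with c | p
  · rfl
  · have h1 : ∀ p, T.E.cf f 0 p = ∑ x, T.E.row (-T.a) 0 (Pi.single p 1) x * f x := by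
      intro p
      rw [row_sum]
      simp
    rw [Sum.elim_inr, h1, h1, Finset.sum_mul, Finset.sum_mul, ← Finset.sum_sub_distrib]
    refine Finset.sum_congr rfl fun x _ => ?_
    have h2 : evm T.ZZ (Sum.elim y w) (Sum.inr p) x =
        T.E.row (-T.a) 0 (Pi.single p.1 1) x * T.gv y p.2 -
        T.E.row (-T.a) 0 (Pi.single p.2 1) x * T.gv y p.1 := by
      have h3 : evm T.ZZ (Sum.elim y w) (Sum.inr p) x = eval (Sum.elim y w)
        (C (T.E.row (-T.a) 0 (Pi.single p.1 1) x) * T.rhs (Sum.inr p.2) -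
        C (T.E.row (-T.a) 0 (Pi.single p.2 1) x) * T.rhs (Sum.inr p.1)) := rfl
      rw [h3, map_sub, map_mul, map_mul, eval_C, eval_C, T.eval_rhs, T.eval_rhs]
      rfl
    have h4 : evm T.ZZ (Sum.elim y w) (Sum.inr p) x * f x =
        T.E.row (-T.a) 0 (Pi.single p.1 1) x * f x * T.gv y p.2 -
        T.E.row (-T.a) 0 (Pi.single p.2 1) x * f x * T.gv y p.1 := by
      rw [h2]
      ring
    exact h4

theorem minor_zero {y w : Fin (m + 2) → ℂ} (hgv : T.gv y ≠ 0) {c : ℂ} (hc : T.RelH y w c)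
    (ρ : Idx T.E.β (-T.a) → Idx T.E.γ (-T.a) ⊕ (Fin T.E.a × Fin T.E.a)) :
    eval (Sum.elim y w) (T.ZZ.submatrix ρ id).det = 0 := by
  obtain ⟨f, hf, hf0, -⟩ := hc
  rw [RingHom.map_det]
  refine td_minor_zero (evm T.ZZ (Sum.elim y w)) f ?_ ?_ ρ
  · rintro rfl
    apply hgv
    rw [← hf0]
    ext i
    simp [cf]
  · rw [evm_ZZ]
    funext r
    rcases r with x | p
    · exact congrFun hf x
    · simp only [Sum.elim_inr, hf0, Pi.zero_apply]
      ring

theorem cf_smul' {n : ℕ} (E : Bundle2 n) {j : ℤ} (c : ℂ) (f : Idx E.β j → ℂ) (b : ℕ) :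
    E.cf (c • f) b = c • E.cf f b := by
  ext i
  unfold cf
  simp only [Pi.smul_apply]
  split_ifs <;> simp

theorem relH_of_minors {y w : Fin (m + 2) → ℂ} (h : LA y w)
    (hgv : T.gv y ≠ 0)
    (hρ : ∀ ρ : Idx T.E.β (-T.a) → Idx T.E.γ (-T.a) ⊕ (Fin T.E.a × Fin T.E.a),
      eval (Sum.elim y w) (T.ZZ.submatrix ρ id).det = 0) : ∃ c, T.RelH y w c := by
  classical
  obtain ⟨f, hf0, hf⟩ := td_maxmin (evm T.ZZ (Sum.elim y w)) (fun ρ => by
    have := hρ ρ
    rw [RingHom.map_det] at this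
    exact this)
  rw [evm_ZZ] at hf
  have hK : Kr T.E (-T.a) y w f := by
    funext c
    exact congrFun hf (Sum.inl c)
  have hcf0 : T.E.cf f 0 ≠ 0 := fun h0 => hf0 (T.uniq_f h hK h0)
  obtain ⟨c, hc⟩ := TaskC2.parallel hgv (w := T.E.cf f 0) (fun i j => by
    have h1 := congrFun hf (Sum.inr (j, i))
    simp only [Sum.elim_inr, Pi.zero_apply] at h1
    linear_combination h1)
  have hc0 : c ≠ 0 := by
    rintro rfl
    rw [zero_smul] at hc
    exact hcf0 hc
  obtain ⟨κ, -, hκ⟩ := T.relH_exists h hgv (f := c⁻¹ • f) (by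
      unfold Kr at hK ⊢
      rw [Matrix.mulVec_smul, hK, smul_zero])
    (by rw [cf_smul', hc, smul_smul, inv_mul_cancel₀ hc0, one_smul])
  exact ⟨κ, hκ⟩

open Classical in
/-- the comparison function -/
noncomputable def HH (N : ℕ) (hN : T.dq = -(N : ℤ)) (v : Pt m → ℂ) : ℂ :=
  if h : v ∈ T.SS then (T.hRel_exists hN h).choose else 0

theorem HH_spec (N : ℕ) (hN : T.dq = -(N : ℤ)) {v : Pt m → ℂ} (hv : v ∈ T.SS) :
    T.HRel v N (T.HH N hN v) := by
  unfold HH
  rw [dif_pos hv]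
  exact (T.hRel_exists hN hv).choose_spec

/-- the common zeros of the denominators are bad -/
theorem den_zero (N : ℕ) (hN : T.dq = -(N : ℤ)) (v : Pt m → ℂ)
    (hv : ∀ p ∈ den T.SS (T.HH N hN), eval v p = 0) (i : Fin 2) (k : Fin (m + 1)) :
    v (Sum.inl i) * v (Sum.inr k) = 0 := by
  by_contra hne
  have hi := left_ne_zero_of_mul hne
  have hk := right_ne_zero_of_mul hne
  have hgv := T.gv_xh v ⟨i, hi⟩
  have hl := la_pt v i hi k hk
  have hvS : v ∈ T.SS := by
    refine ⟨⟨i, hi⟩, ⟨k, hk⟩, fun i' hi' => ?_⟩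
    refine T.relH_of_minors (la_pt v i' hi' k hk) hgv fun ρ => ?_
    have h1 : X (Sum.inl i') * th i' (T.ZZ.submatrix ρ id).det ∈ den T.SS (T.HH N hN) := by
      refine ⟨0, fun v' hv' => ?_⟩
      rw [map_mul, eval_X, eval_th, map_zero]
      by_cases h0 : v' (Sum.inl i') = 0
      · rw [h0, zero_mul, mul_zero]
      · obtain ⟨h, hh⟩ := hv'.2.2 i' h0
        rw [T.minor_zero (T.gv_xh v' ⟨i', h0⟩) hh, mul_zero, mul_zero]
    have h2 := hv _ h1
    rw [map_mul, eval_X, eval_th] at h2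
    exact (mul_eq_zero.1 h2).resolve_left hi'
  obtain ⟨D, Nn, hD, hDN⟩ := T.frac hl
  have h1 : X (Sum.inl i) * th i D ∈ den T.SS (T.HH N hN) := by
    refine ⟨X (Sum.inl i) ^ (N + 1) * th i Nn, fun v' hv' => ?_⟩
    rw [map_mul, map_mul, map_pow, eval_X, eval_th, eval_th]
    by_cases h0 : v' (Sum.inl i) = 0
    · rw [h0]
      simp
    · obtain ⟨h, hh, hc⟩ := T.HH_spec N hN hv' i h0
      rw [hc, ← hDN _ _ _ hh]
      ring
  have h2 := hv _ h1
  rw [map_mul, eval_X, eval_th] at h2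
  rcases mul_eq_zero.1 h2 with h3 | h3
  · exact hi h3
  · exact hD h3

/-- high powers are denominators -/
theorem exists_pow (N : ℕ) (hN : T.dq = -(N : ℤ)) : ∃ K : ℕ, 1 ≤ K ∧ ∀ (i : Fin 2)
    (k : Fin (m + 1)), (X (Sum.inl i) * X (Sum.inr k) : MvPolynomial (Pt m) ℂ) ^ K ∈
      den T.SS (T.HH N hN) := by
  have h1 : ∀ (i : Fin 2) (k : Fin (m + 1)), ∃ K : ℕ,
      (X (Sum.inl i) * X (Sum.inr k) : MvPolynomial (Pt m) ℂ) ^ K ∈ den T.SS (T.HH N hN) := by
    intro i k
    have h2 : (X (Sum.inl i) * X (Sum.inr k) : MvPolynomial (Pt m) ℂ) ∈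
        vanishingIdeal ℂ (zeroLocus ℂ (den T.SS (T.HH N hN))) := by
      rw [mem_vanishingIdeal_iff]
      intro v hv
      have h3 := T.den_zero N hN v (fun p hp => by
        have := hv p hp
        rwa [aeval_eq_eval] at this) i k
      rw [aeval_eq_eval]
      simpa using h3
    rw [vanishingIdeal_zeroLocus_eq_radical] at h2
    exact h2
  choose K hK using h1
  refine ⟨∑ i, ∑ k, K i k + 1, by omega, fun i k => ?_⟩
  have h2 : K i k ≤ ∑ i, ∑ k, K i k + 1 := by
    have h3 : K i k ≤ ∑ k, K i k := Finset.single_le_sum (f := fun k => K i k)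
      (fun _ _ => Nat.zero_le _) (Finset.mem_univ k)
    have h4 : ∑ k, K i k ≤ ∑ i, ∑ k, K i k := Finset.single_le_sum (f := fun i => ∑ k, K i k)
      (fun _ _ => Nat.zero_le _) (Finset.mem_univ i)
    omega
  rw [← Nat.sub_add_cancel h2, pow_add]
  exact Ideal.mul_mem_left _ _ (hK i k)

/-- the functions of bidegree zero take finitely many values -/
theorem finite_values (N P : ℕ) (hN : T.dq = -(N : ℤ)) (hP : T.dp = -(P : ℤ)) (l : Fin 2)
    (k₀ : Fin m) :
    ((fun v => v (Sum.inl l) ^ P * v (Sum.inr k₀.succ) ^ N * T.HH N hN v) '' T.SS).Finite := by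
  classical
  obtain ⟨K, hK1, hK⟩ := T.exists_pow N hN
  have hws1 : ∀ u : Pt m →₀ ℕ, ws (wt1 m) u = u (Sum.inl 0) + u (Sum.inl 1) + u (Sum.inr 0) := by
    intro u
    unfold ws wt1
    rw [Fintype.sum_sum_type, Fin.sum_univ_two, Fin.sum_univ_succ]
    simp
  have hws2 : ∀ u : Pt m →₀ ℕ, ws (wt2 m) u = ∑ k, u (Sum.inr k) := by
    intro u
    unfold ws wt2
    rw [Fintype.sum_sum_type]
    simp
  refine fin_val (wt1 m) (wt2 m) ?_ T.SS _ ?_ ?_ ((m + 1) * K + 2 * K) ((m + 1) * K) ?_ ?_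
  · intro i
    rcases i with i | i <;> simp [wt1, wt2]
  · intro v hv t ht
    obtain ⟨h1, h2⟩ := T.act1 hv t ht
    refine ⟨h1, ?_⟩
    have h3 := T.hRel_unique h1 (T.HH_spec N hN h1) (h2 N hN _ (T.HH_spec N hN hv))
    simp only
    rw [h3, hP, zpow_neg, zpow_natCast]
    have h4 : wt1 m (Sum.inl l) = 1 := rfl
    have h5 : wt1 m (Sum.inr k₀.succ) = 0 := rfl
    have h6 : t ^ P ≠ 0 := pow_ne_zero _ ht
    rw [h4, h5, pow_one, pow_zero, one_mul, mul_pow]
    field_simp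
  · intro v hv t ht
    obtain ⟨h1, h2⟩ := T.act2 hv t ht
    refine ⟨h1, ?_⟩
    have h3 := T.hRel_unique h1 (T.HH_spec N hN h1) (h2 N _ (T.HH_spec N hN hv))
    simp only
    rw [h3, hN, zpow_neg, zpow_natCast]
    have h4 : wt2 m (Sum.inl l) = 0 := rfl
    have h5 : wt2 m (Sum.inr k₀.succ) = 1 := rfl
    have h6 : t ^ N ≠ 0 := pow_ne_zero _ ht
    rw [h4, h5, pow_one, pow_zero, one_mul, mul_pow]
    field_simp
  · intro u hu1 hu2
    rw [hws1] at hu1
    rw [hws2] at hu2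
    obtain ⟨i, hi⟩ : ∃ i : Fin 2, K ≤ u (Sum.inl i) := by
      have h1 : u (Sum.inr 0) ≤ (m + 1) * K := by
        rw [← hu2]
        exact Finset.single_le_sum (f := fun k => u (Sum.inr k)) (fun _ _ => Nat.zero_le _)
          (Finset.mem_univ 0)
      by_contra hcon
      push Not at hcon
      have h2 := hcon 0
      have h3 := hcon 1
      omega
    obtain ⟨k, hk⟩ : ∃ k : Fin (m + 1), K ≤ u (Sum.inr k) := by
      by_contra hcon
      push Not at hcon
      have h2 : ∑ k, u (Sum.inr k) < ∑ _k : Fin (m + 1), K :=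
        Finset.sum_lt_sum_of_nonempty Finset.univ_nonempty (fun k _ => hcon k)
      simp at h2
      omega
    have h1 : (monomial u 1 : MvPolynomial (Pt m) ℂ) ∈ den T.SS (T.HH N hN) := by
      have h2 : (monomial u 1 : MvPolynomial (Pt m) ℂ) =
          monomial (u - (Finsupp.single (Sum.inl i) K + Finsupp.single (Sum.inr k) K)) 1 *
            (X (Sum.inl i) * X (Sum.inr k)) ^ K := by
        rw [mul_pow, X_pow_eq_monomial, X_pow_eq_monomial, monomial_mul, monomial_mul, one_mul,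
          one_mul, tsub_add_cancel_of_le]
        intro z
        rw [Finsupp.add_apply, Finsupp.single_apply, Finsupp.single_apply]
        by_cases h1 : Sum.inl i = z
        · subst h1
          simpa using hi
        · rw [if_neg h1]
          by_cases h2 : Sum.inr k = z
          · subst h2
            simpa using hk
          · rw [if_neg h2]
            simp
      rw [h2]
      exact Ideal.mul_mem_left _ _ (hK i k)
    obtain ⟨Q, hQ⟩ := h1
    refine ⟨X (Sum.inl l) ^ P * X (Sum.inr k₀.succ) ^ N * Q, fun v hv => ?_⟩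
    rw [map_mul, map_mul, map_pow, map_pow, eval_X, eval_X, ← hQ v hv]
    ring
  · rintro v ⟨⟨i, hi⟩, ⟨k, hk⟩, -⟩
    have hev : ∀ (z z' : Pt m) (r r' : ℕ), eval v (monomial (Finsupp.single z r +
        Finsupp.single z' r') (1 : ℂ)) = v z ^ r * v z' ^ r' := by
      intro z z' r r'
      rw [← one_mul (1 : ℂ), ← monomial_mul, ← X_pow_eq_monomial, ← X_pow_eq_monomial]
      simp
    by_cases hk0 : k = 0
    · subst hk0
      refine ⟨Finsupp.single (Sum.inl i) (2 * K) + Finsupp.single (Sum.inr 0) ((m + 1) * K),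
        ?_, ?_, ?_⟩
      · rw [hws1]
        fin_cases i <;> simp <;> ring
      · rw [hws2]
        simp [Finsupp.single_apply]
      · rw [hev]
        exact mul_ne_zero (pow_ne_zero _ hi) (pow_ne_zero _ hk)
    · refine ⟨Finsupp.single (Sum.inl i) ((m + 1) * K + 2 * K) +
        Finsupp.single (Sum.inr k) ((m + 1) * K), ?_, ?_, ?_⟩
      · rw [hws1]
        fin_cases i <;> simp [hk0]
      · rw [hws2]
        simp [Finsupp.single_apply]
      · rw [hev]
        exact mul_ne_zero (pow_ne_zero _ hi) (pow_ne_zero _ hk)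

end DatL

end H932L
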