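import Mathlib

/-!
# The order of vanishing of a determinant
-/

open Polynomial

namespace H932L

theorem det_pow_dvd {m : ℕ} (t₀ : ℂ) : ∀ (r : ℕ) (Q : Matrix (Fin m) (Fin m) ℂ[X])
    (V : Submodule ℂ (Fin m → ℂ)), r ≤ Module.finrank ℂ V →
    (∀ x ∈ V, Matrix.vecMul x (Q.map (eval t₀)) = 0) → (X - C t₀) ^ r ∣ Q.det := by
  intro r
  induction r with
  | zero => intro Q V _ _; simp
  | succ r ih =>
    intro Q V hV hQ
    have hpos : 0 < Module.finrank ℂ V := by omega
    rw [Module.finrank_pos_iff_exists_ne_zero] at hpos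
    obtain ⟨⟨c, hcV⟩, hc0⟩ := hpos
    have hc0' : c ≠ 0 := fun h => hc0 (Subtype.ext h)
    obtain ⟨i₀, hi₀⟩ := Function.ne_iff.1 hc0'
    have hi₀' : c i₀ ≠ 0 := hi₀
    have hdvd : ∀ k, ∃ q : ℂ[X], (∑ i, C (c i) • Q i) k = (X - C t₀) * q := by
      intro k
      have h1 := congrFun (hQ c hcV) k
      have h2 : (X - C t₀) ∣ (∑ i, C (c i) • Q i) k := by
        rw [dvd_iff_isRoot, IsRoot.def]
        rw [Finset.sum_apply, eval_finsetSum]
        refine Eq.trans ?_ h1
        simp only [Matrix.vecMul, dotProduct, Matrix.map_apply]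
        refine Finset.sum_congr rfl fun i _ => ?_
        have h3 : (C (c i) • Q i) k = C (c i) * Q i k := rfl
        rw [h3, eval_mul, eval_C]
      obtain ⟨q, hq⟩ := h2
      exact ⟨q, hq⟩
    choose q hq using hdvd
    have hrow : (∑ i, C (c i) • Q i) = (X - C t₀) • q := by
      funext k
      rw [hq k]
      rfl
    have hdet : C (c i₀) * Q.det = (X - C t₀) * (Q.updateRow i₀ q).det := by
      rw [← Matrix.det_updateRow_smul, ← hrow, Matrix.det_updateRow_sum, smul_eq_mul]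
    let W : Submodule ℂ (Fin m → ℂ) := V ⊓ LinearMap.ker (LinearMap.proj i₀ : (Fin m → ℂ) →ₗ[ℂ] ℂ)
    have hW : r ≤ Module.finrank ℂ W := by
      have h1 := Submodule.finrank_sup_add_finrank_inf_eq V
        (LinearMap.ker (LinearMap.proj i₀ : (Fin m → ℂ) →ₗ[ℂ] ℂ))
      have h2 := LinearMap.finrank_range_add_finrank_ker
        (LinearMap.proj i₀ : (Fin m → ℂ) →ₗ[ℂ] ℂ)
      have h3 : Module.finrank ℂ (LinearMap.range (LinearMap.proj i₀ : (Fin m → ℂ) →ₗ[ℂ] ℂ)) ≤ 1 := by
        refine (Submodule.finrank_le _).trans ?_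
        simp
      have h4 := Submodule.finrank_le (V ⊔ LinearMap.ker
        (LinearMap.proj i₀ : (Fin m → ℂ) →ₗ[ℂ] ℂ))
      have h5 : Module.finrank ℂ W = Module.finrank ℂ (V ⊓ LinearMap.ker
        (LinearMap.proj i₀ : (Fin m → ℂ) →ₗ[ℂ] ℂ) : Submodule ℂ (Fin m → ℂ)) := rfl
      omega
    have h5 := ih (Q.updateRow i₀ q) W hW (by
      intro x hx
      obtain ⟨hxV, hx0⟩ := Submodule.mem_inf.1 hx
      have hx0' : x i₀ = 0 := hx0
      rw [← hQ x hxV]
      funext k
      simp only [Matrix.vecMul, dotProduct, Matrix.map_apply]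
      refine Finset.sum_congr rfl fun i _ => ?_
      by_cases hi : i = i₀
      · subst hi
        rw [hx0', zero_mul, zero_mul]
      · rw [Matrix.updateRow_ne hi])
    obtain ⟨s, hs⟩ := h5
    have h6 : (X - C t₀) ^ (r + 1) ∣ C (c i₀) * Q.det := by
      rw [hdet, hs]
      exact ⟨s, by ring⟩
    have h7 : IsUnit (C (c i₀)) := isUnit_C.2 (IsUnit.mk0 _ hi₀')
    exact (h7.dvd_mul_left).1 h6

end H932L
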