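import Pool.Agent.H932.L.Main4
import Pool.Agent.H932.L.Closure

/-!
# Lines which meet lines of large gap
-/

open MvPolynomial H960VB H960VB.Bundle2 Y208PT Pool.Agent.H106R3.VB H932V H932W

namespace H932L

/-- all the lines in `Λ` which meet the line `AB` have the gap at most `m` -/
def Mild {n : ℕ} (E : Bundle2 n) (Λ : Submodule ℂ (Fin (n + 1) → ℂ)) (m : ℕ)
    (A B : Fin (n + 1) → ℂ) : Prop :=
  ∀ P ∈ Submodule.span ℂ {A, B}, ∀ Q ∈ Λ, LinearIndependent ℂ ![P, Q] →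
      ∀ p q : ℤ, E.SplitsOn P Q p q → p - q ≤ (m : ℤ)

/-- reduction to the coordinate line -/
theorem exists_coord {n m : ℕ} (E : Bundle2 n) (hE : ¬ E.Splits) (hm : 1 ≤ m)
    (Λ : Submodule ℂ (Fin (n + 1) → ℂ)) (hΛ : Module.finrank ℂ Λ = m + 2)
    {A B : Fin (n + 1) → ℂ} (hAΛ : A ∈ Λ) (hBΛ : B ∈ Λ) (hAB : LinearIndependent ℂ ![A, B])
    (hno : Mild E Λ m A B) :
    ∃ (c₁ : ℤ) (T : (Fin (m + 1 + 1) → ℂ) →ₗ[ℂ] (Fin (n + 1) → ℂ)) (hT : Function.Injective T),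
      LinearMap.range T = Λ ∧ T (Fin.cons 1 0) = A ∧ T (Fin.cons 0 (Fin.cons 1 0)) = B ∧
      (∀ P Q : Fin (n + 1) → ℂ, LinearIndependent ℂ ![P, Q] → ∀ p q : ℤ, E.SplitsOn P Q p q →
        p + q = c₁) ∧
      ¬ (E.pull T hT).Splits ∧ HypA (E.pull T hT) c₁ := by
  obtain ⟨m', hm', T₁, hT₁, hT₁Λ, -⟩ := exists_param Λ A hAΛ (hAB.ne_zero 0)
  obtain rfl : m' = m + 1 := by omega
  have hmn : m + 2 ≤ n + 1 := by
    have := Submodule.finrank_le Λ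
    rw [hΛ] at this
    simpa using this
  obtain ⟨A', hA'⟩ : ∃ A', T₁ A' = A := by
    have : A ∈ LinearMap.range T₁ := by rw [hT₁Λ]; exact hAΛ
    exact this
  obtain ⟨B', hB'⟩ : ∃ B', T₁ B' = B := by
    have : B ∈ LinearMap.range T₁ := by rw [hT₁Λ]; exact hBΛ
    exact this
  have hA'B' : LinearIndependent ℂ ![A', B'] := by
    rw [LinearIndependent.pair_iff] at hAB ⊢
    intro s t hst
    apply hAB
    rw [← hA', ← hB', ← map_smul, ← map_smul, ← map_add, hst, map_zero]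
  obtain ⟨T₂, hT₂, hT₂0, hT₂1⟩ := exists_move2 hA'B'
  let T : (Fin (m + 1 + 1) → ℂ) →ₗ[ℂ] (Fin (n + 1) → ℂ) := T₁ ∘ₗ T₂
  have hT : Function.Injective T := hT₁.comp hT₂
  have hTe0 : T (Fin.cons 1 0) = A := by
    change T₁ (T₂ (Fin.cons 1 0)) = A
    rw [hT₂0, hA']
  have hTe1 : T (Fin.cons 0 (Fin.cons 1 0)) = B := by
    change T₁ (T₂ (Fin.cons 0 (Fin.cons 1 0))) = B
    rw [hT₂1, hB']
  have hTm : ∀ x, T x ∈ Λ := fun x => hT₁Λ ▸ LinearMap.mem_range_self T₁ (T₂ x)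
  have hTr : LinearMap.range T = Λ := by
    have h1 : LinearMap.range T₂ = ⊤ := LinearMap.range_eq_top.2 (LinearMap.injective_iff_surjective.1 hT₂)
    rw [LinearMap.range_comp, h1, Submodule.map_top, hT₁Λ]
  have hli : ∀ P Q : Fin (m + 1 + 1) → ℂ, LinearIndependent ℂ ![P, Q] →
      LinearIndependent ℂ ![T P, T Q] := by
    intro P Q h
    have h2 := h.map' T (LinearMap.ker_eq_bot.mpr hT)
    have h3 : (T ∘ ![P, Q]) = ![T P, T Q] := by
      ext i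
      fin_cases i <;> simp
    rwa [h3] at h2
  obtain ⟨c₁, hc⟩ := exists_chern (by omega : 1 ≤ n) E
  have hns : ¬ (E.pull T hT).Splits := fun h =>
    hE (splits_of_pull (n - (m + 1)) (m + 1) n (by omega) (by omega) E T hT h)
  refine ⟨c₁, T, hT, hTr, hTe0, hTe1, hc, hns, ?_⟩
  intro y hy hyA
  refine ⟨hns, ?_, ?_⟩
  · intro P Q hPQ p q hpq
    exact hc _ _ (hli P Q hPQ) p q (splitsOn_of_pull E T hT P Q p q hpq)
  · intro Q hyQ p q hpq
    have h1 : T y ∈ Submodule.span ℂ {A, B} := by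
      rw [coord_pt y hyA, map_add, map_smul, map_smul, hTe0, hTe1]
      exact Submodule.add_mem _
        (Submodule.smul_mem _ _ (Submodule.subset_span (Set.mem_insert _ _)))
        (Submodule.smul_mem _ _ (Submodule.subset_span (Set.mem_insert_of_mem _ rfl)))
    have h2 := hno _ h1 _ (hTm Q) (hli _ _ hyQ) p q (splitsOn_of_pull E T hT y Q p q hpq)
    push_cast
    omega

/-- the pencil of the lines through `x₀` and `R + t S` -/
structure Pen {n : ℕ} (E : Bundle2 n) (Λ : Submodule ℂ (Fin (n + 1) → ℂ)) (m : ℕ)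
    (x₀ R S : Fin (n + 1) → ℂ) (F : Finset ℂ) (h : ℂ → ℕ) : Prop where
  mx : x₀ ∈ Λ
  mR : R ∈ Λ
  mS : S ∈ Λ
  li : ∀ t : ℂ, LinearIndependent ℂ ![x₀, R + t • S]
  gap : ∀ t : ℂ, ∃ p q : ℤ, E.SplitsOn x₀ (R + t • S) p q ∧ |p - q| ≤ m
  low : ∃ t : ℂ, ∃ p q : ℤ, E.SplitsOn x₀ (R + t • S) p q ∧ |p - q| ≤ 1
  jump : ∀ t ∈ F, ∃ p q : ℤ, E.SplitsOn x₀ (R + t • S) p q ∧ 2 * (h t : ℤ) ≤ |p - q|

theorem low_type {n : ℕ} (E : Bundle2 n) {x y : Fin (n + 1) → ℂ}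
    (h : ∃ p q : ℤ, E.SplitsOn x y p q ∧ |p - q| ≤ 1) :
    ∃ p q : ℤ, E.SplitsOn x y p q ∧ q ≤ p ∧ p ≤ q + 1 := by
  obtain ⟨p, q, hpq, hab⟩ := h
  rw [abs_le] at hab
  rcases le_total q p with h1 | h1
  · exact ⟨p, q, hpq, h1, by omega⟩
  · exact ⟨q, p, SplitsOn.swap hpq, h1, by omega⟩

theorem pen_pull {n m k : ℕ} {E : Bundle2 n} {Λ : Submodule ℂ (Fin (n + 1) → ℂ)}
    {x₀ R S : Fin (n + 1) → ℂ} {F : Finset ℂ} {h : ℂ → ℕ} (H : Pen E Λ m x₀ R S F h)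
    (T : (Fin (k + 1) → ℂ) →ₗ[ℂ] (Fin (n + 1) → ℂ)) (hT : Function.Injective T)
    (hTr : LinearMap.range T = Λ) :
    ∃ x₀' R' S', Pen (E.pull T hT) ⊤ m x₀' R' S' F h := by
  obtain ⟨x₀', hx⟩ : ∃ x, T x = x₀ := by
    have : x₀ ∈ LinearMap.range T := by rw [hTr]; exact H.mx
    exact this
  obtain ⟨R', hR⟩ : ∃ x, T x = R := by
    have : R ∈ LinearMap.range T := by rw [hTr]; exact H.mR
    exact this
  obtain ⟨S', hS⟩ : ∃ x, T x = S := by
    have : S ∈ LinearMap.range T := by rw [hTr]; exact H.mS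
    exact this
  have hT' : ∀ t : ℂ, T (R' + t • S') = R + t • S := by
    intro t
    rw [map_add, map_smul, hR, hS]
  have hs : ∀ t : ℂ, ∀ p q : ℤ, E.SplitsOn x₀ (R + t • S) p q →
      (E.pull T hT).SplitsOn x₀' (R' + t • S') p q := by
    intro t p q h
    apply splitsOn_pull
    rw [hx, hT']
    exact h
  refine ⟨x₀', R', S', trivial, trivial, trivial, ?_, ?_, ?_, ?_⟩
  · intro t
    have h1 := H.li t
    rw [LinearIndependent.pair_iff] at h1 ⊢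
    intro a b hab
    apply h1
    rw [← hx, ← hT', ← map_smul, ← map_smul, ← map_add, hab, map_zero]
  · intro t
    obtain ⟨p, q, h1, h2⟩ := H.gap t
    exact ⟨p, q, hs t p q h1, h2⟩
  · obtain ⟨t, p, q, h1, h2⟩ := H.low
    exact ⟨t, p, q, hs t p q h1, h2⟩
  · intro t ht
    obtain ⟨p, q, h1, h2⟩ := H.jump t ht
    exact ⟨p, q, hs t p q h1, h2⟩

/-- **The number of jumping lines in a pencil.** -/
theorem pen_le {n m : ℕ} (E : Bundle2 n) (hE : ¬ E.Splits) (hm : 3 ≤ m)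
    (Λ : Submodule ℂ (Fin (n + 1) → ℂ)) (hΛ : Module.finrank ℂ Λ = m + 2)
    {A B : Fin (n + 1) → ℂ} (hAΛ : A ∈ Λ) (hBΛ : B ∈ Λ) (hAB : LinearIndependent ℂ ![A, B])
    (hno : Mild E Λ m A B) {a b : ℤ} (hab : E.SplitsOn A B a b) (hlt : |a - b| < m)
    {x₀ R S : Fin (n + 1) → ℂ} {F : Finset ℂ} {h : ℂ → ℕ} (H : Pen E Λ m x₀ R S F h) :
    4 * ∑ t ∈ F, (h t : ℤ) ≤ m * (m - 2 * |a - b|) + 1 := by
  obtain ⟨c₁, T, hT, hTr, hT0, hT1, hc, hns, hHyp⟩ := exists_coord E hE (by omega) Λ hΛ hAΛ hBΛ hAB hno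
  obtain ⟨x₀', R', S', H'⟩ := pen_pull H T hT hTr
  have key : ∀ a b : ℤ, E.SplitsOn A B a b → b ≤ a → a - b < m →
      4 * ∑ t ∈ F, (h t : ℤ) ≤ m * (m - 2 * (a - b)) + 1 := by
    intro a b hab hba hlt
    obtain ⟨t₁, hlow⟩ := H'.low
    obtain ⟨p, q, hpq, h1, h2⟩ := low_type _ hlow
    refine pencil_le hHyp hm (a' := a) (b' := b) ?_ (by omega) hlt x₀' R' S' H'.li H'.gap t₁ p q
      hpq h1 h2 F h ?_
    · apply splitsOn_pull
      rw [hT0, hT1]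
      exact hab
    · intro t ht
      obtain ⟨p, q, h3, h4⟩ := H'.jump t ht
      rcases le_total q p with h5 | h5
      · rw [abs_of_nonneg (by omega)] at h4
        exact ⟨p, q, h3, h4⟩
      · rw [abs_of_nonpos (by omega)] at h4
        exact ⟨q, p, SplitsOn.swap h3, by omega⟩
  rcases le_total b a with h1 | h1
  · rw [abs_of_nonneg (by omega)] at hlt ⊢
    exact key a b hab h1 hlt
  · rw [abs_of_nonpos (by omega)] at hlt ⊢
    have h2 := key b a (SplitsOn.swap hab) h1 (by omega)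
    have h3 : -(a - b) = b - a := by ring
    rw [h3]
    exact h2

/-- **The gap of the line.** -/
theorem gap_le {n m : ℕ} (E : Bundle2 n) (hE : ¬ E.Splits) (hm : 4 ≤ m)
    (Λ : Submodule ℂ (Fin (n + 1) → ℂ)) (hΛ : Module.finrank ℂ Λ = m + 2)
    {A B : Fin (n + 1) → ℂ} (hAΛ : A ∈ Λ) (hBΛ : B ∈ Λ) (hAB : LinearIndependent ℂ ![A, B])
    (hno : Mild E Λ m A B) {a b : ℤ} (hab : E.SplitsOn A B a b) (hlt : |a - b| < m) :
    2 * |a - b| ≤ m - 2 := by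
  obtain ⟨c₁, T, hT, hTr, hT0, hT1, hc, hns, hHyp⟩ := exists_coord E hE (by omega) Λ hΛ hAΛ hBΛ hAB hno
  have key : ∀ a b : ℤ, E.SplitsOn A B a b → b ≤ a → a - b < m → 2 * (a - b) ≤ m - 2 := by
    intro a b hab hba hlt
    have h1 := mid_le hHyp (by omega) (a' := a) (b' := b) (by
      apply splitsOn_pull
      rw [hT0, hT1]
      exact hab) (by omega) hlt
    have h2 : 2 * (m : ℤ) - 2 ≤ 4 * ((m / 2 : ℕ) : ℤ) := by omega
    by_contra hcon
    have h3 : (m : ℤ) - 2 * (a - b) ≤ 1 := by omega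
    have h4 : (m : ℤ) * (m - 2 * (a - b)) ≤ m * 1 :=
      mul_le_mul_of_nonneg_left h3 (by omega)
    omega
  rcases le_total b a with h1 | h1
  · rw [abs_of_nonneg (by omega)] at hlt ⊢
    exact key a b hab h1 hlt
  · rw [abs_of_nonpos (by omega)] at hlt ⊢
    have h2 := key b a (SplitsOn.swap hab) h1 (by omega)
    omega

end H932L
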