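import Pool.Agent.H932.L.Fin

/-!
# Lines which meet lines of large gap: the closure argument
-/

open MvPolynomial H960VB H960VB.Bundle2 Y208PT Pool.Agent.H106R3.VB H932V H932W

namespace H932L

/-- a line through `A` is a limit of lines through `A` of the gap at most one -/
theorem near_low {n : ℕ} (E : Bundle2 n) {c₁ : ℤ}
    (hc : ∀ P Q : Fin (n + 1) → ℂ, LinearIndependent ℂ ![P, Q] → ∀ p q : ℤ, E.SplitsOn P Q p q →
        p + q = c₁)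
    {A B w₁ : Fin (n + 1) → ℂ} (hAB : LinearIndependent ℂ ![A, B])
    (hw₁ : LinearIndependent ℂ ![A, w₁]) {p q : ℤ} (hpq : E.SplitsOn A w₁ p q) (hqp : q ≤ p)
    (hpq1 : p ≤ q + 1) (δ : ℝ) (hδ : 0 < δ) : ∃ t : ℝ, 0 < t ∧ t < δ ∧
      LinearIndependent ℂ ![A, B + (t : ℂ) • w₁] ∧
      ∃ p q : ℤ, E.SplitsOn A (B + (t : ℂ) • w₁) p q ∧ q ≤ p ∧ p ≤ q + 1 := by
  classical
  have hA0 : A ≠ 0 := hAB.ne_zero 0
  have hfr : Module.finrank ℂ (LinearMap.ker (Matrix.mulVecLin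
      (evm (fam2 E (-(p + 1))) (Sum.elim A w₁)))) = 0 := by
    rw [finrank_fam2 E hw₁ _ hpq]
    omega
  obtain ⟨Φ, hΦ, hΦ'⟩ := exists_phi (fam2 E (-(p + 1))) 0 (Sum.elim A w₁) hfr
  obtain ⟨Q, hQ⟩ := exists_line_poly (Sum.elim A w₁) (Sum.elim (fun _ => 0) B) Φ
  have hpt : ∀ s : ℂ, (fun i => (Sum.elim A w₁ : V2 n → ℂ) i +
      s * (Sum.elim (fun _ => 0) B : V2 n → ℂ) i) = Sum.elim A (w₁ + s • B) := by
    intro s
    funext i
    rcases i with i | i <;> simp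
  have hQ0 : Q ≠ 0 := by
    rintro rfl
    have h1 := hQ 0
    rw [hpt, zero_smul, add_zero, Polynomial.eval_zero] at h1
    exact hΦ h1.symm
  have hfin1 : {k : ℕ | Q.eval (k : ℂ) = 0}.Finite := by
    refine Set.Finite.subset ((Q.roots.toFinset.finite_toSet).preimage
      (f := fun k : ℕ => (k : ℂ)) (fun a _ b _ h => Nat.cast_injective h)) ?_
    intro k hk
    rw [Set.mem_preimage, Finset.mem_coe, Multiset.mem_toFinset, Polynomial.mem_roots hQ0]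
    exact hk
  have hfin2 : {k : ℕ | ¬ LinearIndependent ℂ ![A, w₁ + (k : ℂ) • B]}.Subsingleton := by
    intro k hk l hl
    have h3 : ∀ k : ℕ, ¬ LinearIndependent ℂ ![A, w₁ + (k : ℂ) • B] →
        ∃ c : ℂ, c • A = w₁ + (k : ℂ) • B := by
      intro k hk
      rw [LinearIndependent.pair_iff' hA0] at hk
      push Not at hk
      exact hk
    obtain ⟨c, hc⟩ := h3 k hk
    obtain ⟨d, hd⟩ := h3 l hl
    have h4 : (-(c - d)) • A + ((k : ℂ) - l) • B = 0 := by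
      have h5 : ((k : ℂ) - l) • B = (w₁ + (k : ℂ) • B) - (w₁ + (l : ℂ) • B) := by module
      rw [h5, ← hc, ← hd]
      module
    have h5 := (LinearIndependent.pair_iff.1 hAB _ _ h4).2
    exact_mod_cast sub_eq_zero.1 h5
  have hinf : {k : ℕ | Q.eval (k : ℂ) ≠ 0 ∧ LinearIndependent ℂ ![A, w₁ + (k : ℂ) • B]}.Infinite := by
    have h3 : {k : ℕ | Q.eval (k : ℂ) ≠ 0 ∧ LinearIndependent ℂ ![A, w₁ + (k : ℂ) • B]} =
        ({k : ℕ | Q.eval (k : ℂ) = 0} ∪ {k : ℕ | ¬ LinearIndependent ℂ ![A, w₁ + (k : ℂ) • B]})ᶜ := by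
      ext k
      simp
    rw [h3]
    exact (hfin1.union hfin2.finite).infinite_compl
  obtain ⟨N, hN⟩ := exists_nat_gt δ⁻¹
  obtain ⟨k, ⟨hk1, hk2⟩, hk3⟩ := hinf.exists_gt N
  have hkpos : (0 : ℝ) < k := by
    have h1 : (0 : ℝ) < δ⁻¹ := inv_pos.2 hδ
    have h2 : (N : ℝ) < k := by exact_mod_cast hk3
    linarith
  have hk0 : (k : ℂ) ≠ 0 := by
    have : (k : ℝ) ≠ 0 := hkpos.ne'
    exact_mod_cast this
  have hkt : ((((k : ℝ)⁻¹ : ℝ)) : ℂ) = (k : ℂ)⁻¹ := by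
    push_cast
    rfl
  have hB' : B + ((((k : ℝ)⁻¹ : ℝ)) : ℂ) • w₁ = (k : ℂ)⁻¹ • (w₁ + (k : ℂ) • B) := by
    rw [hkt, smul_add, smul_smul, inv_mul_cancel₀ hk0, one_smul]
    exact add_comm _ _
  have hli : LinearIndependent ℂ ![A, B + ((((k : ℝ)⁻¹ : ℝ)) : ℂ) • w₁] := by
    rw [hB']
    rw [LinearIndependent.pair_iff] at hk2 ⊢
    intro s t hst
    rw [smul_smul] at hst
    obtain ⟨h1, h2⟩ := hk2 _ _ hst
    exact ⟨h1, (mul_eq_zero.1 h2).resolve_right (inv_ne_zero hk0)⟩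
  refine ⟨(k : ℝ)⁻¹, inv_pos.2 hkpos, ?_, hli, ?_⟩
  · have h2 : (N : ℝ) < k := by exact_mod_cast hk3
    have h3 : δ⁻¹ < k := hN.trans h2
    exact (inv_lt_comm₀ hδ hkpos).1 h3
  · obtain ⟨p', q', hpq'⟩ := splitsOn_exists E hk2
    have h1 := hΦ' (Sum.elim A (w₁ + (k : ℂ) • B)) (by
      have h2 := hQ (k : ℂ)
      rw [hpt] at h2
      rw [← h2]
      exact hk1)
    rw [finrank_fam2 E hk2 _ hpq'] at h1
    have h2 := hc _ _ hk2 p' q' hpq'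
    have h3 := hc _ _ hw₁ p q hpq
    have h4 : E.SplitsOn A (B + ((((k : ℝ)⁻¹ : ℝ)) : ℂ) • w₁) p' q' := by
      refine SplitsOn.lin hpq' 1 0 0 (k : ℂ)⁻¹ (by simp) ?_ hli
      rw [hB']
      simp
    rcases le_total q' p' with h5 | h5
    · exact ⟨p', q', h4, h5, by omega⟩
    · exact ⟨q', p', SplitsOn.swap h4, h5, by omega⟩

/-- if the lines close to the coordinate line meet lines of gap larger than `m`, then so does the
coordinate line -/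
theorem no_near {m : ℕ} {E : Bundle2 (m + 1)} {c₁ : ℤ} (H : HypA E c₁) (hm : 1 ≤ m)
    (w₁ : Fin (m + 1 + 1) → ℂ)
    (hT : ∀ δ : ℝ, 0 < δ → ∃ t : ℝ, 0 < t ∧ t < δ ∧ 
      ¬ Mild E ⊤ m (Fin.cons 1 0) (Fin.cons 0 (Fin.cons 1 0) + (t : ℂ) • w₁)) : False := by
  have he0 : (Fin.cons 1 0 : Fin (m + 2) → ℂ) ≠ 0 := (li_coord m).ne_zero 0
  have heA : ∀ k : Fin m, (Fin.cons 1 0 : Fin (m + 2) → ℂ) k.succ.succ = 0 := by
    intro k
    simp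
  obtain ⟨a, ha⟩ := (H _ he0 heA).parity (by omega) he0
  push_cast at ha
  obtain ⟨x, z, Q, hli, hB⟩ := closure_big E (-(a + 1)) w₁ (li_coord m) (by
    intro δ hδ
    obtain ⟨t, ht0, htδ, hmild⟩ := hT δ hδ
    refine ⟨t, ht0, htδ, ?_⟩
    unfold Mild at hmild
    push Not at hmild
    obtain ⟨P, hP, Q, -, hPQ, p, q, hpq, hgt⟩ := hmild
    rw [Submodule.mem_span_pair] at hP
    obtain ⟨x, z, rfl⟩ := hP
    refine ⟨x, z, Q, hPQ, big_of_type E hPQ hpq ?_⟩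
    have h1 := (H _ he0 heA).hc _ _ hPQ p q hpq
    left
    omega)
  have hy : ∀ k : Fin m, (x • (Fin.cons 1 0 : Fin (m + 2) → ℂ) +
      z • (Fin.cons 0 (Fin.cons 1 0) : Fin (m + 2) → ℂ)) k.succ.succ = 0 := by
    intro k
    simp
  have hy0 : (x • (Fin.cons 1 0 : Fin (m + 2) → ℂ) +
      z • (Fin.cons 0 (Fin.cons 1 0) : Fin (m + 2) → ℂ)) ≠ 0 := hli.ne_zero 0
  obtain ⟨p, q, hpq⟩ := splitsOn_exists E hli
  have h1 := hB.type hli hpq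
  have h2 := (H _ hy0 hy).gap Q hli p q hpq
  have h3 := (H _ hy0 hy).gap Q hli q p (SplitsOn.swap hpq)
  have h4 := (H _ hy0 hy).hc _ _ hli p q hpq
  push_cast at h2 h3
  omega

/-- **The number of jumping lines in a pencil, all lines.** -/
theorem pen_le_all {n m : ℕ} (E : Bundle2 n) (hE : ¬ E.Splits) (hm : 3 ≤ m)
    (Λ : Submodule ℂ (Fin (n + 1) → ℂ)) (hΛ : Module.finrank ℂ Λ = m + 2)
    {A B : Fin (n + 1) → ℂ} (hAΛ : A ∈ Λ) (hBΛ : B ∈ Λ) (hAB : LinearIndependent ℂ ![A, B])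
    (hno : Mild E Λ m A B)
    {x₀ R S : Fin (n + 1) → ℂ} {F : Finset ℂ} {h : ℂ → ℕ} (H : Pen E Λ m x₀ R S F h) :
    4 * ∑ t ∈ F, (h t : ℤ) ≤ m * m + 1 := by
  obtain ⟨c₁, T, hT, hTr, hT0, hT1, hc, hns, hHyp⟩ := exists_coord E hE (by omega) Λ hΛ hAΛ hBΛ hAB hno
  obtain ⟨x₀', R', S', H'⟩ := pen_pull H T hT hTr
  by_contra hcon
  push Not at hcon
  have he0 : (Fin.cons 1 0 : Fin (m + 2) → ℂ) ≠ 0 := (li_coord m).ne_zero 0
  have heA : ∀ k : Fin m, (Fin.cons 1 0 : Fin (m + 2) → ℂ) k.succ.succ = 0 := by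
    intro k
    simp
  obtain ⟨w₁, hw₁, p₁, q₁, hpq₁, hqp₁, hpq1₁⟩ := (hHyp _ he0 heA).low (by omega) he0
  refine no_near hHyp (by omega) w₁ ?_
  intro δ hδ
  obtain ⟨t, ht0, htδ, hli, p, q, hpq, hqp, hpq1⟩ := near_low (E.pull T hT) (hHyp _ he0 heA).hc
    (li_coord m) hw₁ hpq₁ hqp₁ hpq1₁ δ hδ
  refine ⟨t, ht0, htδ, fun hmild => ?_⟩
  have h1 := pen_le (E.pull T hT) hns hm ⊤ (by simp) (A := Fin.cons 1 0)
    (B := Fin.cons 0 (Fin.cons 1 0) + (t : ℂ) • w₁) trivial trivial hli hmild hpq (by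
      rw [abs_of_nonneg (by omega)]
      omega) H'
  rw [abs_of_nonneg (by omega : (0 : ℤ) ≤ p - q)] at h1
  have h2 : (0 : ℤ) ≤ (m : ℤ) * (p - q) := mul_nonneg (by omega) (by omega)
  have h3 : (m : ℤ) * (m - 2 * (p - q)) = m * m - 2 * (m * (p - q)) := by ring
  rw [h3] at h1
  linarith

/-- **`P^4`, lines of gap one.** -/
theorem mild4_false {n : ℕ} (E : Bundle2 n) (hE : ¬ E.Splits)
    (Λ : Submodule ℂ (Fin (n + 1) → ℂ)) (hΛ : Module.finrank ℂ Λ = 3 + 2)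
    {A B : Fin (n + 1) → ℂ} (hAΛ : A ∈ Λ) (hBΛ : B ∈ Λ) (hAB : LinearIndependent ℂ ![A, B])
    (hno : Mild E Λ 3 A B) {a b : ℤ} (hab : E.SplitsOn A B a b) (h₁ : a - b = 1) : False := by
  obtain ⟨c₁, T, hT, hTr, hT0, hT1, hc, hns, hHyp⟩ := exists_coord E hE (by omega) Λ hΛ hAΛ hBΛ hAB hno
  refine coord_falseL4 hHyp (a' := a) (b' := b) ?_ h₁
  apply splitsOn_pull
  rw [hT0, hT1]
  exact hab

/-- **`P^4`, all lines.** -/
theorem mild4 {n : ℕ} (E : Bundle2 n) (hE : ¬ E.Splits)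
    (Λ : Submodule ℂ (Fin (n + 1) → ℂ)) (hΛ : Module.finrank ℂ Λ = 3 + 2)
    {A B : Fin (n + 1) → ℂ} (hAΛ : A ∈ Λ) (hBΛ : B ∈ Λ) (hAB : LinearIndependent ℂ ![A, B])
    (hno : Mild E Λ 3 A B) : False := by
  obtain ⟨c₁, T, hT, hTr, hT0, hT1, hc, hns, hHyp⟩ := exists_coord E hE (by omega) Λ hΛ hAΛ hBΛ hAB hno
  have he0 : (Fin.cons 1 0 : Fin (3 + 2) → ℂ) ≠ 0 := (li_coord 3).ne_zero 0
  have heA : ∀ k : Fin 3, (Fin.cons 1 0 : Fin (3 + 2) → ℂ) k.succ.succ = 0 := by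
    intro k
    simp
  obtain ⟨c, hcp⟩ := (hHyp _ he0 heA).parity (by omega) he0
  push_cast at hcp
  obtain ⟨w₁, hw₁, p₁, q₁, hpq₁, hqp₁, hpq1₁⟩ := (hHyp _ he0 heA).low (by omega) he0
  refine no_near hHyp (by omega) w₁ ?_
  intro δ hδ
  obtain ⟨t, ht0, htδ, hli, p, q, hpq, hqp, hpq1⟩ := near_low (E.pull T hT) (hHyp _ he0 heA).hc
    (li_coord 3) hw₁ hpq₁ hqp₁ hpq1₁ δ hδ
  refine ⟨t, ht0, htδ, fun hmild => ?_⟩
  have h1 := (hHyp _ he0 heA).hc _ _ hli p q hpq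
  exact mild4_false (E.pull T hT) hns ⊤ (by simp) (A := Fin.cons 1 0)
    (B := Fin.cons 0 (Fin.cons 1 0) + (t : ℂ) • w₁) trivial trivial hli hmild hpq (by omega)

end H932L
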