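import Pool.Agent.H932.L.PlkL
import Pool.Agent.H932.W.Tau

/-!
# Gaps one and three on the lines through a point: the degree of the Plücker vector is not zero
-/

open MvPolynomial H960VB H960VB.Bundle2 Y208PT Pool.Agent.H106R3.VB H932V H932W

namespace H932L

variable {n : ℕ}

theorem cf_mt_ge (E : Bundle2 n) {j : ℤ} (j' : ℤ) (g : Idx E.β j → ℂ) (b m : ℕ) (hj : j + b ≤ j')
    (hbm : b ≤ m) : E.cf (E.mt g b j') m = E.cf g (m - b) := by
  ext i
  by_cases h : m < (E.β i + j' + 1).toNat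
  · rw [cf_mt E j' g b m i h, if_pos hbm]
  · have h1 : E.cf (E.mt g b j') m i = 0 := dif_neg h
    have h2 : E.cf g (m - b) i = 0 := dif_neg (by omega)
    rw [h1, h2]

section

variable (E : Bundle2 n) {j : ℤ} (p : (Fin 3 → Idx E.β j) → MvPolynomial (Fin (n + 1)) ℂ)

/-- the combination of the Plücker coordinates for three functionals -/
noncomputable def Pf (b : Fin 3 → ℕ) (f : Fin 3 → Fin E.a → ℂ) : MvPolynomial (Fin (n + 1)) ℂ :=
  ∑ J : Fin 3 → Idx E.β j, C (∏ t, E.row j (b t) (f t) (J t)) * p J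

theorem Pf_det {w : Fin (n + 1) → ℂ} {u : Fin 3 → Idx E.β j → ℂ} {κ : ℂ}
    (hκ : ∀ J, Wd u J = κ * eval w (p J)) (b : Fin 3 → ℕ) (f : Fin 3 → Fin E.a → ℂ) :
    Matrix.det (Matrix.of fun a t => f t ⬝ᵥ E.cf (u a) (b t)) = κ * eval w (Pf E p b f) := by
  have h1 : (Matrix.of fun a t => f t ⬝ᵥ E.cf (u a) (b t)) =
      Matrix.of fun a t => ∑ x, E.row j (b t) (f t) x * u a x := by
    ext a t
    simp only [Matrix.of_apply]
    rw [row_sum]
  rw [h1, det_expand, Pf, map_sum, Finset.mul_sum]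
  refine Finset.sum_congr rfl fun J _ => ?_
  rw [hκ, map_mul, eval_C]
  ring

theorem Pf_hom (hp : ∀ J, HomZ (p J) (∑ s, (((J s).2 : ℕ) : ℤ))) (b : Fin 3 → ℕ)
    (f : Fin 3 → Fin E.a → ℂ) : HomZ (Pf E p b f) (∑ t, ((b t : ℕ) : ℤ)) := by
  apply homZ_of_scale
  intro t ht x
  unfold Pf
  rw [map_sum, map_sum, Finset.mul_sum]
  refine Finset.sum_congr rfl fun J _ => ?_
  simp only [map_mul, eval_C]
  by_cases h0 : ∏ t, E.row j (b t) (f t) (J t) = 0
  · rw [h0]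
    ring
  · have h1 : ∑ s, (((J s).2 : ℕ) : ℤ) = ∑ t, ((b t : ℕ) : ℤ) := by
      refine Finset.sum_congr rfl fun s _ => ?_
      have h2 := (Finset.prod_ne_zero_iff.1 h0) s (Finset.mem_univ s)
      simp only [row] at h2
      by_contra h3
      apply h2
      rw [if_neg]
      intro h4
      exact h3 (by rw [h4])
    have h2 : eval (t • x) (p J) = t ^ (∑ s, (((J s).2 : ℕ) : ℤ)) * eval x (p J) := by
      rcases hp J with h3 | ⟨k, hk, h3⟩
      · rw [h3]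
        simp
      · rw [Y208PT.eval_smul_hom h3, ← hk, zpow_natCast]
    rw [h2, h1]
    ring

/-- lines of gap one -/
theorem pf_gap1 (E : Bundle2 n) (a : ℤ)
    (p : (Fin 3 → Idx E.β (-(a - 2))) → MvPolynomial (Fin (n + 1)) ℂ)
    {x₀ w : Fin (n + 1) → ℂ} (h : LinearIndependent ℂ ![x₀, w])
    (hwed : ∀ u : Fin 3 → Idx E.β (-(a - 2)) → ℂ, (∀ s, Kr E (-(a - 2)) x₀ w (u s)) →
      ∃ κ : ℂ, ∀ J, Wd u J = κ * eval w (p J))
    (hs : E.SplitsOn x₀ w (a - 1) (a - 2)) :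
    ∃ (κ : ℂ) (e h : Fin E.a → ℂ), e ∈ E.fib x₀ ∧ h ∈ E.fib x₀ ∧ LinearIndependent ℂ ![e, h] ∧
      (∀ q₁ q₂ q₃ : Fin E.a → ℂ, κ * eval w (Pf E p ![0, 0, 1] ![q₁, q₂, q₃]) =
        (q₁ ⬝ᵥ e * q₂ ⬝ᵥ h - q₂ ⬝ᵥ e * q₁ ⬝ᵥ h) * q₃ ⬝ᵥ e) ∧
      (∀ lam lam' : Fin E.a → ℂ, lam ⬝ᵥ e = 0 → ∃ t : ℂ,
        κ * eval w (Pf E p ![0, 0, 2] ![lam', lam, lam]) = t * (lam' ⬝ᵥ e) * (lam ⬝ᵥ h) ∧
        κ * eval w (Pf E p ![0, 1, 2] ![lam, lam, lam]) = -(t ^ 2) * (lam ⬝ᵥ h)) := by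
  have hz10 : (![1, 0] : Fin 2 → ℂ) ≠ 0 := by
    intro h
    have := congrFun h 0
    simp at this
  obtain ⟨g₁, g₂, hg₁', hg₂', hl⟩ := hs
  have hg₁ : LineSec E x₀ w (a - 1) g₁ := ⟨hg₁', fun z hz => (hl z hz).1⟩
  have hg₂ : LineSec E x₀ w (a - 2) g₂ := ⟨hg₂', fun z hz => (hl z hz).2.1⟩
  obtain ⟨f₁, hf₁, -, hf₁0⟩ := mem_of_lineSec E h hg₁
  obtain ⟨f₂, hf₂, -, hf₂0⟩ := mem_of_lineSec E h hg₂
  let u : Fin 3 → Idx E.β (-(a - 2)) → ℂ := ![E.mt f₁ 1 (-(a - 2)), E.mt f₁ 0 (-(a - 2)), f₂]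
  obtain ⟨κ, hκ⟩ := hwed u (by
      intro s
      fin_cases s
      · exact kr_mt E h hf₁ 1 0 (by push_cast; ring)
      · exact kr_mt E h hf₁ 0 1 (by push_cast; ring)
      · exact hf₂)
  have e1 : E.cf (u 0) 0 = 0 := cf_mt_lt E _ f₁ 1 0 (by omega)
  have e2 : E.cf (u 0) 1 = evv g₁ ![1, 0] := by
    have := cf_mt_ge E (-(a - 2)) f₁ 1 1 (by push_cast; omega) le_rfl
    rw [Nat.sub_self, hf₁0] at this
    exact this
  have e3 : E.cf (u 0) 2 = E.cf f₁ 1 := cf_mt_ge E (-(a - 2)) f₁ 1 2 (by push_cast; omega) (by omega)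
  have e4 : ∀ m, E.cf (u 1) m = E.cf f₁ m := fun m =>
    cf_mt_ge E (-(a - 2)) f₁ 0 m (by push_cast; omega) (by omega)
  have e5 : E.cf (u 2) 0 = evv g₂ ![1, 0] := hf₂0
  have hfib : ∀ (g : Fin E.a → MvPolynomial (Fin 2) ℂ) q, LineSec E x₀ w q g →
      evv g ![1, 0] ∈ E.fib x₀ := by
    intro g q hg
    have h1 := hg.2 ![1, 0] hz10
    simpa using h1
  refine ⟨κ, evv g₁ ![1, 0], evv g₂ ![1, 0], hfib _ _ hg₁, hfib _ _ hg₂, (hl _ hz10).2.2, ?_, ?_⟩
  · intro q₁ q₂ q₃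
    rw [← Pf_det E p hκ, Matrix.det_fin_three]
    simp only [Matrix.of_apply, Matrix.cons_val_zero, Matrix.cons_val_one, Matrix.cons_val, e1, e2,
      e4, e5, hf₁0, dotProduct_zero]
    ring
  · intro lam lam' hlam
    refine ⟨lam ⬝ᵥ E.cf f₁ 1, ?_, ?_⟩
    · rw [← Pf_det E p hκ, Matrix.det_fin_three]
      simp only [Matrix.of_apply, Matrix.cons_val_zero, Matrix.cons_val_one, Matrix.cons_val, e1, e3,
        e4, e5, hf₁0, dotProduct_zero, hlam]
      ring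
    · rw [← Pf_det E p hκ, Matrix.det_fin_three]
      simp only [Matrix.of_apply, Matrix.cons_val_zero, Matrix.cons_val_one, Matrix.cons_val, e1, e2,
        e3, e4, e5, hf₁0, dotProduct_zero, hlam]
      ring

/-- lines of gap three -/
theorem pf_gap3 (E : Bundle2 n) (a : ℤ)
    (p : (Fin 3 → Idx E.β (-(a - 2))) → MvPolynomial (Fin (n + 1)) ℂ)
    {x₀ w : Fin (n + 1) → ℂ} (h : LinearIndependent ℂ ![x₀, w])
    (hwed : ∀ u : Fin 3 → Idx E.β (-(a - 2)) → ℂ, (∀ s, Kr E (-(a - 2)) x₀ w (u s)) →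
      ∃ κ : ℂ, ∀ J, Wd u J = κ * eval w (p J))
    {g : Fin E.a → MvPolynomial (Fin 2) ℂ} (hg : LineSec E x₀ w a g) (hg0 : evv g ![1, 0] ≠ 0) :
    ∃ κ : ℂ, κ ≠ 0 ∧
      (∀ q₁ q₂ q₃ : Fin E.a → ℂ, eval w (Pf E p ![0, 0, 1] ![q₁, q₂, q₃]) = 0) ∧
      (∀ q₁ q₂ q₃ : Fin E.a → ℂ, eval w (Pf E p ![0, 0, 2] ![q₁, q₂, q₃]) = 0) ∧
      (∀ lam : Fin E.a → ℂ, κ * eval w (Pf E p ![0, 1, 2] ![lam, lam, lam]) =
        (lam ⬝ᵥ evv g ![1, 0]) ^ 3) := by
  obtain ⟨f, hf, -, hf0⟩ := mem_of_lineSec E h hg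
  let u : Fin 3 → Idx E.β (-(a - 2)) → ℂ := ![E.mt f 0 (-(a - 2)), E.mt f 1 (-(a - 2)),
    E.mt f 2 (-(a - 2))]
  obtain ⟨κ, hκ⟩ := hwed u (by
      intro s
      fin_cases s
      · exact kr_mt E h hf 0 2 (by push_cast; ring)
      · exact kr_mt E h hf 1 1 (by push_cast; ring)
      · exact kr_mt E h hf 2 0 (by push_cast; ring))
  have e0 : ∀ m, E.cf (u 0) m = E.cf f m := fun m =>
    cf_mt_ge E (-(a - 2)) f 0 m (by push_cast; omega) (by omega)
  have e1 : E.cf (u 1) 0 = 0 := cf_mt_lt E _ f 1 0 (by omega)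
  have e2 : ∀ m, E.cf (u 1) (m + 1) = E.cf f m := fun m =>
    cf_mt_ge E (-(a - 2)) f 1 (m + 1) (by push_cast; omega) (by omega)
  have e3 : E.cf (u 2) 0 = 0 := cf_mt_lt E _ f 2 0 (by omega)
  have e4 : E.cf (u 2) 1 = 0 := cf_mt_lt E _ f 2 1 (by omega)
  have e5 : E.cf (u 2) 2 = E.cf f 0 := cf_mt_ge E (-(a - 2)) f 2 2 (by push_cast; omega) (by omega)
  have e6 : E.cf (u 1) 1 = E.cf f 0 := e2 0
  have e7 : E.cf (u 1) 2 = E.cf f 1 := e2 1
  have hdet : ∀ lam : Fin E.a → ℂ, κ * eval w (Pf E p ![0, 1, 2] ![lam, lam, lam]) =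
        (lam ⬝ᵥ evv g ![1, 0]) ^ 3 := by
    intro lam
    rw [← Pf_det E p hκ, Matrix.det_fin_three]
    simp only [Matrix.of_apply, Matrix.cons_val_zero, Matrix.cons_val_one, Matrix.cons_val, e0, e1,
      e3, e4, e5, e6, e7, hf0, dotProduct_zero]
    ring
  have hκ0 : κ ≠ 0 := by
    rintro rfl
    obtain ⟨i, hi⟩ := Function.ne_iff.1 hg0
    have h1 := hdet (Pi.single i 1)
    rw [zero_mul, single_one_dotProduct] at h1
    exact hi (pow_eq_zero_iff (by norm_num) |>.1 h1.symm)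
  refine ⟨κ, hκ0, fun q₁ q₂ q₃ => ?_, fun q₁ q₂ q₃ => ?_, hdet⟩
  · refine (mul_eq_zero.1 ?_).resolve_left hκ0
    rw [← Pf_det E p hκ, Matrix.det_fin_three]
    simp only [Matrix.of_apply, Matrix.cons_val_zero, Matrix.cons_val_one, Matrix.cons_val, e0, e1,
      e3, e4, e6, hf0, dotProduct_zero]
    ring
  · refine (mul_eq_zero.1 ?_).resolve_left hκ0
    rw [← Pf_det E p hκ, Matrix.det_fin_three]
    simp only [Matrix.of_apply, Matrix.cons_val_zero, Matrix.cons_val_one, Matrix.cons_val, e0, e1,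
      e3, e5, e7, hf0, dotProduct_zero]
    ring

/-- **The degree of the Plücker vector is not zero.** -/
theorem no_zero (E : Bundle2 n) (a : ℤ)
    (p : (Fin 3 → Idx E.β (-(a - 2))) → MvPolynomial (Fin (n + 1)) ℂ)
    (hp : ∀ J, HomZ (p J) (∑ s, (((J s).2 : ℕ) : ℤ))) (x₀ : Fin (n + 1) → ℂ)
    (hwed : ∀ w, LinearIndependent ℂ ![x₀, w] → ∀ u : Fin 3 → Idx E.β (-(a - 2)) → ℂ,
      (∀ s, Kr E (-(a - 2)) x₀ w (u s)) → ∃ κ : ℂ, ∀ J, Wd u J = κ * eval w (p J))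
    (hcase : ∀ w, LinearIndependent ℂ ![x₀, w] →
      E.SplitsOn x₀ w (a - 1) (a - 2) ∨ E.SplitsOn x₀ w a (a - 3))
    (w₁ : Fin (n + 1) → ℂ) (hw₁ : LinearIndependent ℂ ![x₀, w₁])
    (hs₁ : E.SplitsOn x₀ w₁ (a - 1) (a - 2))
    (hdir : ∀ ε ∈ E.fib x₀, ε ≠ 0 → ∃ w, LinearIndependent ℂ ![x₀, w] ∧
      ∃ g, LineSec E x₀ w a g ∧ evv g ![1, 0] = ε) : False := by
  classical
  obtain ⟨κ₁, e₁, h₁, he₁, hh₁, hli₁, hC₁, -⟩ := pf_gap1 E a p hw₁ (hwed _ hw₁) hs₁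
  obtain ⟨w₀, hw₀, g, hg, hge⟩ := hdir h₁ hh₁ (hli₁.ne_zero 1)
  obtain ⟨κ₀, hκ₀, hC₀, hA₀, hB₀⟩ := pf_gap3 E a p hw₀ (hwed _ hw₀) hg
    (by rw [hge]; exact hli₁.ne_zero 1)
  rw [hge] at hB₀
  -- the functionals
  obtain ⟨i, k, hik⟩ := exists_minor_ne hli₁
  obtain ⟨l, hl⟩ := Function.ne_iff.1 (hli₁.ne_zero 0 : ![e₁, h₁] 0 ≠ 0)
  simp only [Matrix.cons_val_zero, Pi.zero_apply] at hl
  obtain ⟨lam, hlam⟩ : ∃ lam : Fin E.a → ℂ, ∀ v : Fin E.a → ℂ, lam ⬝ᵥ v = e₁ i * v k - e₁ k * v i := by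
    refine ⟨e₁ i • Pi.single k 1 - e₁ k • Pi.single i 1, fun v => ?_⟩
    rw [sub_dotProduct, smul_dotProduct, smul_dotProduct, single_one_dotProduct,
      single_one_dotProduct, smul_eq_mul, smul_eq_mul]
  obtain ⟨lam', hlam'⟩ : ∃ lam' : Fin E.a → ℂ, ∀ v : Fin E.a → ℂ, lam' ⬝ᵥ v = v l :=
    ⟨Pi.single l 1, fun v => by rw [single_one_dotProduct]⟩
  have hlam1 : lam ⬝ᵥ e₁ = 0 := by rw [hlam]; ring
  have hlamh : lam ⬝ᵥ h₁ ≠ 0 := by rw [hlam]; exact hik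
  have hlam'1 : lam' ⬝ᵥ e₁ ≠ 0 := by rw [hlam']; exact hl
  -- the functionals are independent on the fibre
  have hinj : ∀ v ∈ E.fib x₀, lam' ⬝ᵥ v = 0 → lam ⬝ᵥ v = 0 → v = 0 := by
    intro v hv h2 h3
    have h4 : ∃ s t : ℂ, v = s • e₁ + t • h₁ := by
      have h5 := E.rank_two x₀ (hw₁.ne_zero 0)
      have h6 : Submodule.span ℂ (Set.range ![e₁, h₁]) = E.fib x₀ := by
        apply Submodule.eq_of_le_of_finrank_eq
        · rw [Submodule.span_le]
          rintro _ ⟨m, rfl⟩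
          fin_cases m
          · exact he₁
          · exact hh₁
        · rw [finrank_span_eq_card hli₁, Fintype.card_fin]
          exact h5.symm
      rw [← h6] at hv
      rw [Matrix.range_cons, Matrix.range_cons, Matrix.range_empty, Set.union_empty,
        Set.singleton_union, Submodule.mem_span_pair] at hv
      obtain ⟨s, t, hst⟩ := hv
      exact ⟨s, t, hst.symm⟩
    obtain ⟨s, t, rfl⟩ := h4
    rw [dotProduct_add, dotProduct_smul, dotProduct_smul, smul_eq_mul, smul_eq_mul, hlam1,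
      mul_zero, zero_add] at h3
    have ht : t = 0 := (mul_eq_zero.1 h3).resolve_right hlamh
    subst ht
    rw [zero_smul, add_zero, dotProduct_smul, smul_eq_mul] at h2
    have hs : s = 0 := (mul_eq_zero.1 h2).resolve_right hlam'1
    rw [hs]
    simp
  -- the linear forms
  have hlin : ∀ q₃ : Fin E.a → ℂ, ∀ ε : ℂ, eval (w₀ + ε • w₁) (Pf E p ![0, 0, 1] ![lam', lam, q₃]) =
      ε * eval w₁ (Pf E p ![0, 0, 1] ![lam', lam, q₃]) := by
    intro q₃ ε
    have h2 : HomZ (Pf E p ![0, 0, 1] ![lam', lam, q₃]) 1 := by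
      have := Pf_hom E p hp ![0, 0, 1] ![lam', lam, q₃]
      simpa [Fin.sum_univ_three] using this
    rw [eval_add_of_hom1 h2, hC₀, zero_add]
    rcases h2 with h3 | ⟨m, hm, h3⟩
    · rw [h3]
      simp
    · have hm1 : m = 1 := by exact_mod_cast hm
      subst hm1
      rw [Y208PT.eval_smul_hom h3, pow_one]
  have hC1 : κ₁ * eval w₁ (Pf E p ![0, 0, 1] ![lam', lam, lam']) ≠ 0 := by
    rw [hC₁, hlam1, zero_mul, sub_zero]
    exact mul_ne_zero (mul_ne_zero hlam'1 hlamh) hlam'1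
  have hκ₁ : κ₁ ≠ 0 := left_ne_zero_of_mul hC1
  have hC1' := right_ne_zero_of_mul hC1
  have hCl : eval w₁ (Pf E p ![0, 0, 1] ![lam', lam, lam]) = 0 := by
    have h2 := hC₁ lam' lam lam
    rw [hlam1, mul_zero] at h2
    exact (mul_eq_zero.1 h2).resolve_left hκ₁
  -- the identity
  have hid : ∀ ε : ℂ, ε ≠ 0 → LinearIndependent ℂ ![x₀, w₀ + ε • w₁] →
      eval (w₀ + ε • w₁) (Pf E p ![0, 0, 2] ![lam', lam, lam]) ^ 2 =
      -(eval (w₀ + ε • w₁) (Pf E p ![0, 1, 2] ![lam, lam, lam]) *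
        (ε * eval w₁ (Pf E p ![0, 0, 1] ![lam', lam, lam']))) := by
    intro ε hε hli
    rcases hcase _ hli with hs | hs
    · obtain ⟨κ, e, h, he, hh, hliε, hC, hAB⟩ := pf_gap1 E a p hli (hwed _ hli) hs
      have hD : lam' ⬝ᵥ e * lam ⬝ᵥ h - lam ⬝ᵥ e * lam' ⬝ᵥ h ≠ 0 := by
        intro h0
        rw [LinearIndependent.pair_iff] at hliε
        by_cases h2 : lam' ⬝ᵥ e = 0
        · by_cases h3 : lam ⬝ᵥ e = 0
          · have h4 := hinj e he h2 h3
            have h5 := hliε 1 0 (by rw [h4]; simp)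
            exact one_ne_zero h5.1
          · rw [h2, zero_mul, zero_sub, neg_eq_zero] at h0
            have h4 : lam' ⬝ᵥ h = 0 := (mul_eq_zero.1 h0).resolve_left h3
            have h5 : (lam ⬝ᵥ h) • e + (-(lam ⬝ᵥ e)) • h = 0 := by
              apply hinj
              · exact Submodule.add_mem _ (Submodule.smul_mem _ _ he) (Submodule.smul_mem _ _ hh)
              · rw [dotProduct_add, dotProduct_smul, dotProduct_smul, h2, h4]
                simp
              · rw [dotProduct_add, dotProduct_smul, dotProduct_smul, smul_eq_mul, smul_eq_mul]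
                ring
            exact h3 (neg_eq_zero.1 (hliε _ _ h5).2)
        · have h5 : (lam' ⬝ᵥ h) • e + (-(lam' ⬝ᵥ e)) • h = 0 := by
            apply hinj
            · exact Submodule.add_mem _ (Submodule.smul_mem _ _ he) (Submodule.smul_mem _ _ hh)
            · rw [dotProduct_add, dotProduct_smul, dotProduct_smul, smul_eq_mul, smul_eq_mul]
              ring
            · rw [dotProduct_add, dotProduct_smul, dotProduct_smul, smul_eq_mul, smul_eq_mul]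
              linear_combination -h0
          exact h2 (neg_eq_zero.1 (hliε _ _ h5).2)
      -- the direction
      have hκ : κ ≠ 0 := by
        rintro rfl
        have h2 := hC lam' lam lam'
        have h3 := hC lam' lam lam
        rw [zero_mul] at h2 h3
        have h4 := (mul_eq_zero.1 h2.symm).resolve_left hD
        have h5 := (mul_eq_zero.1 h3.symm).resolve_left hD
        have h6 := hinj e he h4 h5
        exact hliε.ne_zero 0 h6
      have he0 : lam ⬝ᵥ e = 0 := by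
        have h3 := hC lam' lam lam
        rw [hlin, hCl, mul_zero, mul_zero] at h3
        exact (mul_eq_zero.1 h3.symm).resolve_left hD
      obtain ⟨t, hA, hB⟩ := hAB lam lam' he0
      have hCc := hC lam' lam lam'
      rw [hlin] at hCc
      rw [he0, zero_mul, sub_zero] at hCc
      have h2 : κ ^ 2 ≠ 0 := pow_ne_zero _ hκ
      apply mul_left_cancel₀ h2
      have e1 : κ ^ 2 * eval (w₀ + ε • w₁) (Pf E p ![0, 0, 2] ![lam', lam, lam]) ^ 2 =
          (κ * eval (w₀ + ε • w₁) (Pf E p ![0, 0, 2] ![lam', lam, lam])) ^ 2 := by ring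
      have e2 : κ ^ 2 * -(eval (w₀ + ε • w₁) (Pf E p ![0, 1, 2] ![lam, lam, lam]) *
        (ε * eval w₁ (Pf E p ![0, 0, 1] ![lam', lam, lam']))) =
        -((κ * eval (w₀ + ε • w₁) (Pf E p ![0, 1, 2] ![lam, lam, lam])) *
        (κ * (ε * eval w₁ (Pf E p ![0, 0, 1] ![lam', lam, lam'])))) := by ring
      rw [e1, e2, hA, hB, hCc]
      ring
    · exfalso
      obtain ⟨g₁, g₂, hg₁', hg₂', hl'⟩ := hs
      have hz10 : (![1, 0] : Fin 2 → ℂ) ≠ 0 := by
        intro h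
        have := congrFun h 0
        simp at this
      obtain ⟨-, -, hC, -, -⟩ := pf_gap3 E a p hli (hwed _ hli)
        ⟨hg₁', fun z hz => (hl' z hz).1⟩ ((hl' _ hz10).2.2.ne_zero 0)
      have h2 := hC lam' lam lam'
      rw [hlin] at h2
      exact mul_ne_zero hε hC1' h2
  -- polynomials in one variable
  obtain ⟨A, hA⟩ := exists_line_poly w₀ w₁ (Pf E p ![0, 0, 2] ![lam', lam, lam])
  obtain ⟨B, hB⟩ := exists_line_poly w₀ w₁ (Pf E p ![0, 1, 2] ![lam, lam, lam])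
  have hpt : ∀ ε : ℂ, (fun i => w₀ i + ε * w₁ i) = w₀ + ε • w₁ := fun ε => rfl
  have hpoly : A ^ 2 = -(B * (Polynomial.X *
      Polynomial.C (eval w₁ (Pf E p ![0, 0, 1] ![lam', lam, lam'])))) := by
    apply Polynomial.eq_of_infinite_eval_eq
    have hinf : {ε : ℂ | ε ≠ 0 ∧ LinearIndependent ℂ ![x₀, w₀ + ε • w₁]}.Infinite := by
      have h2 : {ε : ℂ | ¬ LinearIndependent ℂ ![x₀, w₀ + ε • w₁]}.Subsingleton := by
        intro ε hε ε' hε'
        by_contra hne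
        have h3 : ∀ ε : ℂ, ¬ LinearIndependent ℂ ![x₀, w₀ + ε • w₁] →
            ∃ c : ℂ, w₀ + ε • w₁ = c • x₀ := by
          intro ε hε
          by_contra hcon
          push Not at hcon
          apply hε
          have hx0 : x₀ ≠ 0 := hw₁.ne_zero 0
          rw [LinearIndependent.pair_iff' hx0]
          intro c
          exact fun h => hcon c h.symm
        obtain ⟨c, hc⟩ := h3 ε hε
        obtain ⟨c', hc'⟩ := h3 ε' hε'
        have h4 : (ε - ε') • w₁ = (c - c') • x₀ := by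
          rw [sub_smul, sub_smul, ← hc, ← hc']
          module
        have h5 := LinearIndependent.pair_iff.1 hw₁ (-(c - c')) (ε - ε') (by
          rw [h4]
          module)
        exact hne (sub_eq_zero.1 h5.2)
      have h3 : {ε : ℂ | ε ≠ 0 ∧ LinearIndependent ℂ ![x₀, w₀ + ε • w₁]} =
          ({0} ∪ {ε : ℂ | ¬ LinearIndependent ℂ ![x₀, w₀ + ε • w₁]})ᶜ := by
        ext ε
        simp
      rw [h3]
      exact ((Set.finite_singleton _).union h2.finite).infinite_compl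
    apply hinf.mono
    rintro ε ⟨hε, hli⟩
    have h2 := hid ε hε hli
    change Polynomial.eval ε _ = Polynomial.eval ε _
    rw [Polynomial.eval_pow, Polynomial.eval_neg, Polynomial.eval_mul, Polynomial.eval_mul,
      Polynomial.eval_X, Polynomial.eval_C, hA, hB]
    exact h2
  have hA0 : A.eval 0 = 0 := by
    rw [hA]
    have h2 : (fun i => w₀ i + 0 * w₁ i) = w₀ := by
      funext i
      ring
    rw [h2]
    exact hA₀ _ _ _
  obtain ⟨A', hA'⟩ : Polynomial.X ∣ A := by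
    rw [Polynomial.X_dvd_iff, Polynomial.coeff_zero_eq_eval_zero]
    exact hA0
  have h2 : Polynomial.X * A' ^ 2 =
      -(B * Polynomial.C (eval w₁ (Pf E p ![0, 0, 1] ![lam', lam, lam']))) := by
    apply mul_left_cancel₀ (Polynomial.X_ne_zero (R := ℂ))
    rw [hA'] at hpoly
    linear_combination hpoly
  have h3 := congrArg (Polynomial.eval 0) h2
  rw [Polynomial.eval_mul, Polynomial.eval_X, zero_mul, Polynomial.eval_neg, Polynomial.eval_mul,
    Polynomial.eval_C, eq_comm, neg_eq_zero] at h3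
  have h4 := (mul_eq_zero.1 h3).resolve_right hC1'
  rw [hB] at h4
  have h5 : (fun i => w₀ i + 0 * w₁ i) = w₀ := by
    funext i
    ring
  rw [h5] at h4
  have h6 := hB₀ lam
  rw [h4, mul_zero] at h6
  exact hlamh (pow_eq_zero_iff (by norm_num) |>.1 h6.symm)

end

end H932L
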