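import Pool.Agent.H932.L.Contra
import Pool.Agent.H932.L.NoZero
import Pool.Agent.H932.W.Main4

/-!
# Lines which meet lines of large gap (coordinate version)
-/

open MvPolynomial H960VB H960VB.Bundle2 Y208PT Pool.Agent.H106R3.VB H932V H932W

namespace H932L

/-- the points of the coordinate line satisfy the hypothesis -/
def HypA {m : ℕ} (E : Bundle2 (m + 1)) (c₁ : ℤ) : Prop :=
  ∀ y : Fin (m + 2) → ℂ, y ≠ 0 → (∀ k : Fin m, y k.succ.succ = 0) → HypP E c₁ y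

theorem HypA.ty {m : ℕ} {E : Bundle2 (m + 1)} {c₁ : ℤ} (H : HypA E c₁) {a b₀ : ℤ}
    (hc : c₁ = a + b₀) (hab : a - b₀ = m) {y w : Fin (m + 2) → ℂ} (h : LA y w) {p q : ℤ}
    (hpq : E.SplitsOn y w p q) : p ≤ a ∧ q ≤ a ∧ p + q = a + b₀ := by
  have H' := H y (h.2.ne_zero 0) h.1
  have h1 := H'.gap w h.2 p q hpq
  have h2 := H'.gap w h.2 q p (SplitsOn.swap hpq)
  have h3 := H'.hc y w h.2 p q hpq
  push_cast at h1 h2
  refine ⟨?_, ?_, ?_⟩ <;> omega

theorem HypA.ok {m : ℕ} {E : Bundle2 (m + 1)} {c₁ : ℤ} (H : HypA E c₁) {a b₀ j : ℤ}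
    (hc : c₁ = a + b₀) (hab : a - b₀ = m) (hj : j = -b₀ - 1) {y w : Fin (m + 2) → ℂ}
    (h : LA y w) : Ok E j m y w := by
  refine ⟨h.2, ?_⟩
  obtain ⟨p, q, hpq⟩ := splitsOn_exists E h.2
  obtain ⟨h1, h2, h3⟩ := H.ty hc hab h hpq
  rw [finrank_fam2 E h.2 _ hpq]
  omega

/-- the section through a point with a given value -/
theorem HypA.sec {m : ℕ} {E : Bundle2 (m + 1)} {c₁ : ℤ} (H : HypA E c₁) (hm : 1 ≤ m) {a b₀ : ℤ}
    (hc : c₁ = a + b₀) (hab : a - b₀ = m) {y : Fin (m + 2) → ℂ} (hy : y ≠ 0)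
    (hyA : ∀ k : Fin m, y k.succ.succ = 0) {ε : Fin E.a → ℂ} (hε : ε ∈ E.fib y) (hε0 : ε ≠ 0) :
      ∃ w, LinearIndependent ℂ ![y, w] ∧ ∃ g, LineSec E y w a g ∧ evv g ![1, 0] = ε := by
  obtain ⟨w, hyw, p, q, hpq, hgap, g, hgs, hge⟩ := (H y hy hyA).dir (by omega) hy hε hε0
  have h3 := (H y hy hyA).hc y w hyw p q hpq
  push_cast at hgap
  have hpa : p = a := by omega
  rw [hpa] at hgs
  exact ⟨w, hyw, g, hgs, hge⟩

/-- **The contradiction**, if the degree of the Plücker vector is small. -/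
theorem core {m : ℕ} {E : Bundle2 (m + 1)} {c₁ : ℤ} (H : HypA E c₁) (hm : 1 ≤ m)
    {a' b' : ℤ} (hA : E.SplitsOn (Fin.cons 1 0) (Fin.cons 0 (Fin.cons 1 0)) a' b')
    (hg : 0 ≤ a' - b') (hg2 : a' - b' < m) {a b₀ j : ℤ} (hc : c₁ = a + b₀) (hab : a - b₀ = m)
    (hj : j = -b₀ - 1) (K : PlkL E j m) (hd1 : 2 * K.d1 < m * (a' - b' - 1))
    (hd2 : 2 * K.d2 ≤ m * ((m : ℤ) - 1)) : False := by
  classical
  have hcA : a' + b' = c₁ := (H (Fin.cons 1 0) ((li_coord m).ne_zero 0) (by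
    intro k
    simp)).hc _ _ (li_coord m) _ _ hA
  obtain ⟨g₁, g₂, hg₁, hg₂, hl⟩ := id hA
  let T : DatL m :=
    { E := E
      G := m
      a := a
      b₀ := b₀
      j := j
      α := a'
      hab := hab
      hj := hj
      K := K
      hok := fun y w h => H.ok hc hab hj h
      hmax := fun y w h p q hpq => ⟨(H.ty hc hab h hpq).1, (H.ty hc hab h hpq).2.1⟩
      g₁ := g₁
      hg₁ := hg₁
      hg0 := fun z hz => (hl z hz).2.2.ne_zero 0 }
  have hS : 2 * (∑ s : Fin m, ((s : ℕ) : ℤ)) = (m : ℤ) * ((m : ℤ) - 1) := by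
    rw [Fin.sum_univ_eq_sum_range (fun s => (s : ℤ)) m]
    have h1 := Finset.sum_range_id_mul_two m
    have h2 : ((∑ s ∈ Finset.range m, s : ℕ) : ℤ) = ∑ s ∈ Finset.range m, (s : ℤ) := by
      push_cast
      rfl
    rw [← h2]
    have h3 : ((m - 1 : ℕ) : ℤ) = (m : ℤ) - 1 := by omega
    rw [← h3]
    have h4 : (((∑ s ∈ Finset.range m, s) * 2 : ℕ) : ℤ) = ((m * (m - 1) : ℕ) : ℤ) := by
      rw [h1]
    push_cast at h4 ⊢
    linarith
  have hdp : T.dp < 0 := by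
    change (∑ s : Fin m, ((s : ℕ) : ℤ)) - m * (a' + j) + K.d1 < 0
    have h1 : 2 * (a' + j) = (a' - b') + m - 2 := by omega
    have h2 : 2 * ((m : ℤ) * (a' + j)) = m * ((a' - b') + m - 2) := by rw [← h1]; ring
    have h3 : (m : ℤ) * ((a' - b') + m - 2) = m * ((m : ℤ) - 1) + m * (a' - b' - 1) := by ring
    linarith
  have hdq : T.dq ≤ 0 := by
    change K.d2 - (∑ s : Fin m, ((s : ℕ) : ℤ)) ≤ 0
    linarith
  refine T.contra hdp hdq ?_ ?_
  · intro y w hy hw hyw f hf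
    have h1 : E.SplitsOn y w a' b' :=
      SplitsOn.lin hA (y 0) (y 1) (w 0) (w 1) (coord_pt y hy) (coord_pt w hw) hyw
    have h2 := finrank_fam2 E hyw (-a) h1
    have h3 : (a' + -a + 1).toNat + (b' + -a + 1).toNat = 0 := by omega
    rw [h3, Submodule.finrank_eq_zero] at h2
    have h4 : f ∈ LinearMap.ker (Matrix.mulVecLin (evm (fam2 E (-a)) (Sum.elim y w))) := by
      rw [LinearMap.mem_ker, Matrix.mulVecLin_apply]
      exact hf
    rw [h2, Submodule.mem_bot] at h4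
    exact h4
  · intro y hy0 hy
    have hz : (![y 0, y 1] : Fin 2 → ℂ) ≠ 0 := by
      intro h0
      apply hy0
      rw [coord_pt y hy]
      have h1 : y 0 = 0 := congrFun h0 0
      have h2 : y 1 = 0 := congrFun h0 1
      rw [h1, h2]
      simp
    have hfib : T.gv y ∈ E.fib y := by
      have h1 := (hl _ hz).1
      simp only [Matrix.cons_val_zero, Matrix.cons_val_one] at h1
      rw [← coord_pt y hy] at h1
      exact h1
    obtain ⟨w, hyw, g, hg, hge⟩ := H.sec hm hc hab hy0 hy hfib (by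
      exact (hl _ hz).2.2.ne_zero 0)
    obtain ⟨f, hf, -, hf2⟩ := mem_of_lineSec E hyw hg
    exact ⟨w, hyw, f, hf, hf2.trans hge⟩

theorem low_num {m g d : ℤ} (N : ℤ) (hm : 4 ≤ m) (hg : m ≤ 2 * g) (hd : d + 1 ≤ N)
    (hN : 4 * N ≤ (m - 1) * (m - 1)) : 2 * d < m * (g - 1) := by
  nlinarith

/-- **The coordinate version**, `n ≥ 5`. -/
theorem coord_falseL {m : ℕ} {E : Bundle2 (m + 1)} {c₁ : ℤ} (H : HypA E c₁) (hm : 4 ≤ m)
    {a' b' : ℤ} (hA : E.SplitsOn (Fin.cons 1 0) (Fin.cons 0 (Fin.cons 1 0)) a' b')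
    (hg : (m : ℤ) ≤ 2 * (a' - b')) (hg2 : a' - b' < m) : False := by
  classical
  have he0 : (Fin.cons 1 0 : Fin (m + 2) → ℂ) ≠ 0 := (li_coord m).ne_zero 0
  have heA : ∀ k : Fin m, (Fin.cons 1 0 : Fin (m + 2) → ℂ) k.succ.succ = 0 := by
    intro k
    simp
  obtain ⟨a, ha⟩ := (H _ he0 heA).parity (by omega) he0
  push_cast at ha
  obtain ⟨b₀, hb₀⟩ : ∃ b₀ : ℤ, b₀ = a - m := ⟨_, rfl⟩
  have hc : c₁ = a + b₀ := by omega
  have hab : a - b₀ = m := by omega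
  have hok : ∀ w, LinearIndependent ℂ ![(Fin.cons 1 0 : Fin (m + 2) → ℂ), w] →
      Ok E (-b₀ - 1) m (Fin.cons 1 0) w := fun w hw => H.ok hc hab rfl ⟨heA, hw⟩
  obtain ⟨K⟩ := exists_plkL (by omega) E (H _ he0 heA).hc (-b₀ - 1) m (by omega)
    (hok _ (li_coord m))
  obtain ⟨ε, hε, hε0⟩ := exists_fib E he0
  obtain ⟨w₂, hw₂, g, hgs, hge⟩ := H.sec (by omega) hc hab he0 heA hε hε0
  obtain ⟨f, hf, -, hfε'⟩ := mem_of_lineSec E hw₂ hgs
  have hfε := hfε'.trans hge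
  have hf0 : f ≠ 0 := by
    rintro rfl
    apply hε0
    rw [← hfε]
    ext i
    simp [cf]
  obtain ⟨w₁, hw₁, p, q, hpq, hqp, hpq1⟩ := (H _ he0 heA).low (by omega) he0
  have hs := (H.ty hc hab ⟨heA, hw₁⟩ hpq).2.2
  have hd2 := K.d2_bound (by omega) a b₀ (by omega) rfl _ hok w₁ hw₁ p q
    hpq hqp hpq1 hs w₂ hw₂ f hf hf0
  have hd1 := K.d1_bound (by omega) a b₀ (by omega) rfl _ hok w₁ hw₁ p q
    hpq hqp hpq1 hs w₂ hw₂ f hf hf0
  have hN := N0_eq m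
  have hN' : 4 * (N0 m : ℤ) ≤ ((m : ℤ) - 1) * ((m : ℤ) - 1) := by
    rcases Nat.even_or_odd' m with ⟨k, hk | hk⟩
    · have e1 : (m + 1) / 2 = k := by omega
      have e2 : m / 2 = k := by omega
      rw [e1, e2] at hN
      have e3 : (m : ℤ) = 2 * k := by omega
      rw [e3]
      nlinarith
    · have e1 : (m + 1) / 2 = k + 1 := by omega
      have e2 : m / 2 = k := by omega
      rw [e1, e2] at hN
      push_cast at hN
      have e3 : (m : ℤ) = 2 * k + 1 := by omega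
      rw [e3]
      nlinarith
  refine core H (by omega) hA (by omega) hg2 hc hab rfl K ?_ ?_
  · exact low_num _ (by omega) hg hd1 hN'
  · have : (4 : ℤ) ≤ m := by omega
    nlinarith

end H932L
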