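import Pool.Agent.H932.W.Lin1
import Pool.Agent.H932.W.Hyp

/-!
# Nonsplit bundles with gaps at most `n - 1` on the lines through a point; the Plücker vector
-/

open MvPolynomial H960VB H960VB.Bundle2 Y208PT Pool.Agent.H106R3.VB H932V H932W

namespace H932L

variable {n : ℕ}

/-- `E` does not split, the first Chern class is `c₁`, the lines through `P` have the gap at most
`n - 1`. -/
structure HypP (E : Bundle2 n) (c₁ : ℤ) (P : Fin (n + 1) → ℂ) : Prop where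
  ns : ¬ E.Splits
  hc : ∀ A B : Fin (n + 1) → ℂ, LinearIndependent ℂ ![A, B] →
      ∀ a b : ℤ, E.SplitsOn A B a b → a + b = c₁
  gap : ∀ B : Fin (n + 1) → ℂ, LinearIndependent ℂ ![P, B] →
      ∀ a b : ℤ, E.SplitsOn P B a b → a - b ≤ (n : ℤ) - 1

variable {E : Bundle2 n} {c₁ : ℤ}

/-- a line of the gap `n - 1` with the prescribed direction -/
theorem HypP.dir {P : Fin (n + 1) → ℂ} (H : HypP E c₁ P) (hn : 2 ≤ n) (hP : P ≠ 0)
    {ε : Fin E.a → ℂ} (hε : ε ∈ E.fib P) (hε0 : ε ≠ 0) :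
    ∃ Q, LinearIndependent ℂ ![P, Q] ∧ ∃ a b : ℤ, E.SplitsOn P Q a b ∧ a - b = (n : ℤ) - 1 ∧
      ∃ g : Fin E.a → MvPolynomial (Fin 2) ℂ, LineSec E P Q a g ∧ evv g ![1, 0] = ε := by
  obtain ⟨Q, -, hPQ, a, b, hab, hba, h⟩ := level E H.ns c₁ H.hc P hP ε hε hε0 0 (n - 1) ⊤
    trivial (by rw [finrank_top, Module.finrank_fin_fun]; omega) (fun Q _ hPQ => lv_zero E hPQ ε)
  have h1 := H.gap Q hPQ a b hab
  refine ⟨Q, hPQ, a, b, hab, ?_, ?_⟩
  · rcases h with h | ⟨h, -⟩ <;> push_cast at h <;> omega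
  · rcases h with h | ⟨-, h | h⟩
    · push_cast at h
      omega
    · omega
    · exact h

/-- the parity -/
theorem HypP.parity {P : Fin (n + 1) → ℂ} (H : HypP E c₁ P) (hn : 2 ≤ n) (hP : P ≠ 0) :
    ∃ q : ℤ, 2 * q = c₁ + ((n : ℤ) - 1) := by
  obtain ⟨ε, hε, hε0⟩ := exists_fib E hP
  obtain ⟨Q, hPQ, a, b, hab, hg, -⟩ := H.dir hn hP hε hε0
  have := H.hc _ _ hPQ a b hab
  exact ⟨a, by omega⟩

/-- a line of the gap at most one -/
theorem HypP.low {P : Fin (n + 1) → ℂ} (H : HypP E c₁ P) (hn : 2 ≤ n) (hP : P ≠ 0) :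
    ∃ Q, LinearIndependent ℂ ![P, Q] ∧ ∃ a b : ℤ, E.SplitsOn P Q a b ∧ b ≤ a ∧ a ≤ b + 1 := by
  obtain ⟨ε, hε, hε0⟩ := exists_fib E hP
  by_contra hcon
  push Not at hcon
  obtain ⟨Q, -, hPQ, a, b, hab, hba, h⟩ := level E H.ns c₁ H.hc P hP ε hε hε0 1 (n - 1) ⊤
    trivial (by rw [finrank_top, Module.finrank_fin_fun]; omega) (by
      intro Q _ hPQ
      obtain ⟨a, b, hab, hba⟩ := exists_type E hPQ
      have h1 := hcon Q hPQ a b hab hba
      exact ⟨a, b, hab, hba, Or.inl (by push_cast; omega)⟩)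
  have h1 := H.gap Q hPQ a b hab
  rcases h with h | ⟨h, -⟩ <;> push_cast at h <;> omega

/-- the points `y`, `w` are on a line on which the space of sections of `E(j)` has the dimension
`G` -/
def Ok (E : Bundle2 n) (j : ℤ) (G : ℕ) (y w : Fin (n + 1) → ℂ) : Prop :=
  LinearIndependent ℂ ![y, w] ∧
    Module.finrank ℂ (LinearMap.ker (Matrix.mulVecLin (evm (fam2 E j) (Sum.elim y w)))) = G

/-- a Plücker vector of the spaces of sections of `E(j)` on the lines -/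
structure PlkL (E : Bundle2 n) (j : ℤ) (G : ℕ) where
  pi : (Fin G → Idx E.β j) → MvPolynomial (V2 n) ℂ
  d1 : ℤ
  d2 : ℤ
  ne : ∀ y w : Fin (n + 1) → ℂ, Ok E j G y w → ∃ J, eval (Sum.elim y w) (pi J) ≠ 0
  wed : ∀ y w : Fin (n + 1) → ℂ, Ok E j G y w → ∀ u : Fin G → Idx E.β j → ℂ,
    (∀ s, Kr E j y w (u s)) → ∃ κ : ℂ, ∀ J, Wd u J = κ * eval (Sum.elim y w) (pi J)
  homY : ∀ J, HomW (wtY n) (pi J) (∑ s, (E.β (J s).1 + j - (((J s).2 : ℕ) : ℤ)) - d1)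
  homW : ∀ J, HomW (wtW n) (pi J) (∑ s, (((J s).2 : ℕ) : ℤ) - d2)

/-- the kernel does not become larger outside a hypersurface -/
theorem exists_phi {σ Y I : Type} [Fintype Y] [Fintype I] [DecidableEq I]
    (M : Matrix Y I (MvPolynomial σ ℂ)) (r : ℕ) (v₁ : σ → ℂ)
    (h₁ : Module.finrank ℂ (LinearMap.ker (Matrix.mulVecLin (evm M v₁))) = r) :
    ∃ Φ : MvPolynomial σ ℂ, eval v₁ Φ ≠ 0 ∧ ∀ v, eval v Φ ≠ 0 →
      Module.finrank ℂ (LinearMap.ker (Matrix.mulVecLin (evm M v))) ≤ r := by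
  classical
  obtain ⟨R', W', e', hR', hW', hdet'⟩ := td_local_rows (evm M v₁) (1 : Matrix I I ℂ) r h₁
    (fun g _ h => by rwa [Matrix.one_mulVec] at h)
  let T : Matrix I I (MvPolynomial σ ℂ) :=
    Matrix.of fun i => Sum.elim (fun r : R' => M r)
      (fun z : W' => fun j => C ((1 : Matrix I I ℂ) z j)) (e' i)
  have hTm : ∀ v, evm T v = Matrix.of fun i => Sum.elim (fun r : R' => evm M v r)
        (fun z : W' => (1 : Matrix I I ℂ) z) (e' i) := by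
    intro v
    ext i j
    simp only [T, evm, Matrix.map_apply, Matrix.of_apply]
    rcases e' i with r | z
    · rfl
    · simp
  have hT : ∀ v, eval v T.det = (evm T v).det := by
    intro v
    rw [RingHom.map_det]
    rfl
  refine ⟨T.det, ?_, fun v hv => ?_⟩
  · rw [hT, hTm]
    exact hdet'
  · rw [hT] at hv
    let L : (I → ℂ) →ₗ[ℂ] (W' → ℂ) := LinearMap.funLeft ℂ ℂ (fun z : W' => (z : I))
    have hinj : Function.Injective (L ∘ₗ (LinearMap.ker (Matrix.mulVecLin (evm M v))).subtype) := by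
      rw [injective_iff_map_eq_zero]
      rintro ⟨g, hg⟩ h0
      have hg' : (evm M v).mulVec g = 0 := hg
      have h0' : ∀ z : W', g z = 0 := fun z => congrFun h0 z
      have h1 : (evm T v).mulVec g = 0 := by
        funext i
        rw [hTm]
        simp only [Matrix.mulVec, Matrix.of_apply, dotProduct, Pi.zero_apply]
        rcases e' i with r | z
        · exact congrFun hg' r
        · simp only [Sum.elim_inr]
          have h2 : ∑ x, (1 : Matrix I I ℂ) z x * g x = g z := by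
            simp [Matrix.one_apply]
          rw [h2, h0']
      apply Subtype.ext
      by_contra hne
      have h2 : ∃ g, g ≠ 0 ∧ (evm T v).mulVec g = 0 := ⟨g, hne, h1⟩
      rw [Matrix.exists_mulVec_eq_zero_iff] at h2
      exact hv h2
    have h1 := LinearMap.finrank_le_finrank_of_injective hinj
    rw [Module.finrank_fintype_fun_eq_card, Fintype.card_coe, hW'] at h1
    exact h1

theorem exists_plkL (hn : 1 ≤ n) (E : Bundle2 n) {c₁ : ℤ}
    (hc : ∀ A B : Fin (n + 1) → ℂ, LinearIndependent ℂ ![A, B] →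
      ∀ a b : ℤ, E.SplitsOn A B a b → a + b = c₁) (j : ℤ) (G : ℕ) (hG : c₁ + 2 * j + 2 = G)
    {y₁ w₁ : Fin (n + 1) → ℂ} (h₁ : Ok E j G y₁ w₁) : Nonempty (PlkL E j G) := by
  classical
  let i0 : Fin (n + 1) := ⟨0, by omega⟩
  let i1 : Fin (n + 1) := ⟨1, by omega⟩
  have h01 : i0 ≠ i1 := by
    intro h
    have := congrArg Fin.val h
    simp [i0, i1] at this
  let Φ : MvPolynomial (V2 n) ℂ := X (Sum.inl i0) * X (Sum.inr i1) - X (Sum.inl i1) * X (Sum.inr i0)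
  have hΦe : ∀ v : V2 n → ℂ, eval v Φ = (v ∘ Sum.inl) i0 * (v ∘ Sum.inr) i1 -
      (v ∘ Sum.inl) i1 * (v ∘ Sum.inr) i0 := by
    intro v
    simp [Φ]
  have hΦ : Φ ≠ 0 := by
    intro h
    have h1 := hΦe (Sum.elim (Pi.single i0 1) (Pi.single i1 1))
    rw [h, map_zero] at h1
    simp [h01, h01.symm] at h1
  have hgood : ∀ v, eval v Φ ≠ 0 → LinearIndependent ℂ ![v ∘ Sum.inl, v ∘ Sum.inr] := by
    intro v hv
    rw [hΦe] at hv
    exact li_of_minor hv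
  obtain ⟨Ψ, hΨ, hΨ'⟩ := exists_phi (fam2 E j) G (Sum.elim y₁ w₁) h₁.2
  have hΨ0 : Ψ ≠ 0 := by
    rintro rfl
    exact hΨ (map_zero _)
  obtain ⟨π, h1, h2, h3⟩ := plu (fam2 E j) G (Φ * Ψ) (mul_ne_zero hΦ hΨ0) (by
    intro v hv
    rw [map_mul] at hv
    have hli := hgood v (left_ne_zero_of_mul hv)
    refine le_antisymm (hΨ' v (right_ne_zero_of_mul hv)) ?_
    obtain ⟨p, q, hpq⟩ := splitsOn_exists E hli
    have h4 := finrank_fam2 E hli j hpq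
    rw [elim_self] at h4
    rw [h4]
    have h5 := hc _ _ hli p q hpq
    omega)
  obtain ⟨d1, hd1⟩ := h3 (wtY n) (fun c => E.γ c.1 + j - ((c.2 : ℕ) : ℤ))
    (fun b => E.β b.1 + j - ((b.2 : ℕ) : ℤ)) (fam2_homY E j)
  obtain ⟨d2, hd2⟩ := h3 (wtW n) (fun c => ((c.2 : ℕ) : ℤ)) (fun b => ((b.2 : ℕ) : ℤ))
    (fam2_homW E j)
  exact ⟨⟨π, d1, d2, fun y w h => h1 _ h.2, fun y w h u hu => h2 _ h.2 u hu, hd1, hd2⟩⟩

theorem Ok.symm {E : Bundle2 n} {j : ℤ} {G : ℕ} {y w : Fin (n + 1) → ℂ} (h : Ok E j G y w) :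
    Ok E j G w y := by
  refine ⟨li_symm h.1, ?_⟩
  obtain ⟨p, q, hpq⟩ := splitsOn_exists E h.1
  have h1 := finrank_fam2 E h.1 j hpq
  have h2 : E.SplitsOn w y p q := SplitsOn.lin hpq 0 1 1 0 (by simp) (by simp) (li_symm h.1)
  rw [finrank_fam2 E (li_symm h.1) j h2, ← h1, h.2]

/-- the bound for the degree in the second point -/
theorem PlkL.d2_bound {E : Bundle2 n} {j : ℤ} {G : ℕ} (K : PlkL E j G) (hG : 2 ≤ G) (a b₀ : ℤ)
    (hab : a - b₀ = G) (hj : j = -b₀ - 1) (x₀ : Fin (n + 1) → ℂ)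
    (hdim : ∀ w, LinearIndependent ℂ ![x₀, w] → Ok E j G x₀ w)
    (w₁ : Fin (n + 1) → ℂ) (hw₁ : LinearIndependent ℂ ![x₀, w₁]) (p q : ℤ)
    (hpq : E.SplitsOn x₀ w₁ p q) (hp : q ≤ p) (hq : p ≤ q + 1) (hs : p + q = a + b₀)
    (w₂ : Fin (n + 1) → ℂ) (hw₂ : LinearIndependent ℂ ![x₀, w₂]) (f : Idx E.β (-a) → ℂ)
    (hf : Kr E (-a) x₀ w₂ f) (hf0 : f ≠ 0) : K.d2 + 1 ≤ N0 G := by
  refine nu_bound E x₀ G hG a b₀ j hab hj (fun J w => eval (Sum.elim x₀ w) (K.pi J)) K.d2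
    ?_ ?_ ?_ (fun w hw => (hdim w hw).2) w₁ hw₁ p q hpq hp hq hs w₂ hw₂ f hf hf0
  · intro J w
    refine ⟨(Ph (wtW n) (K.pi J)).map (eval (Sum.elim x₀ w)), fun t => ?_⟩
    rw [Ph_eval, wtW_act]
    rfl
  · intro J w t ht
    have h1 := (K.homW J).eval t (Sum.elim x₀ w)
    rw [wtW_act] at h1
    exact h1
  · intro w hw u hu
    exact K.wed x₀ w (hdim w hw) u hu

/-- the bound for the degree in the first point -/
theorem PlkL.d1_bound {E : Bundle2 n} {j : ℤ} {G : ℕ} (K : PlkL E j G) (hG : 2 ≤ G) (a b₀ : ℤ)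
    (hab : a - b₀ = G) (hj : j = -b₀ - 1) (x₀ : Fin (n + 1) → ℂ)
    (hdim : ∀ w, LinearIndependent ℂ ![x₀, w] → Ok E j G x₀ w)
    (w₁ : Fin (n + 1) → ℂ) (hw₁ : LinearIndependent ℂ ![x₀, w₁]) (p q : ℤ)
    (hpq : E.SplitsOn x₀ w₁ p q) (hp : q ≤ p) (hq : p ≤ q + 1) (hs : p + q = a + b₀)
    (w₂ : Fin (n + 1) → ℂ) (hw₂ : LinearIndependent ℂ ![x₀, w₂]) (f : Idx E.β (-a) → ℂ)
    (hf : Kr E (-a) x₀ w₂ f) (hf0 : f ≠ 0) : K.d1 + 1 ≤ N0 G := by
  refine nu_bound E x₀ G hG a b₀ j hab hj (fun J w => eval (Sum.elim w x₀) (K.pi (rv ∘ J))) K.d1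
    ?_ ?_ ?_ (fun w hw => (hdim w hw).2) w₁ hw₁ p q hpq hp hq hs w₂ hw₂ f hf hf0
  · intro J w
    refine ⟨(Ph (wtY n) (K.pi (rv ∘ J))).map (eval (Sum.elim w x₀)), fun t => ?_⟩
    rw [Ph_eval, wtY_act]
    rfl
  · intro J w t ht
    have h1 := (K.homY (rv ∘ J)).eval t (Sum.elim w x₀)
    rw [wtY_act] at h1
    refine Eq.trans h1 ?_
    have h2 : ∑ s, (E.β ((rv ∘ J) s).1 + j - ((((rv ∘ J) s).2 : ℕ) : ℤ)) =
        ∑ s, (((J s).2 : ℕ) : ℤ) := by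
      refine Finset.sum_congr rfl fun s _ => ?_
      have h3 := rv_val (J s)
      simp only [Function.comp_apply]
      rw [h3]
      simp only [rv]
      ring
    rw [h2]
  · intro w hw u hu
    obtain ⟨κ, hκ⟩ := K.wed w x₀ (hdim w hw).symm (fun s => u s ∘ rv) (fun s => kr_rv E hw (hu s))
    refine ⟨κ, fun J => ?_⟩
    rw [← hκ]
    unfold Wd
    congr 1
    ext a b
    simp [rv_rv]

end H932L
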