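import Pool.Agent.H932.L.DetDvd
import Pool.Agent.H932.L.PlkL

/-!
# The number of jumping lines in a pencil and the degree of the Plücker vector
-/

open MvPolynomial H960VB H960VB.Bundle2 Y208PT Pool.Agent.H106R3.VB H932V H932W

namespace H932L

/-- a polynomial frame of the kernels along an affine line -/
theorem frame1 {σ Y I : Type} [Fintype Y] [Fintype I] [DecidableEq I]
    (M : Matrix Y I (MvPolynomial σ ℂ)) (L : σ → MvPolynomial (Fin 1) ℂ) (r : ℕ)
    (hr : ∀ t : ℂ, Module.finrank ℂ (LinearMap.ker (Matrix.mulVecLin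
      (evm M (fun i => eval (fun _ => t) (L i))))) = r) (t₀ : ℂ) :
    ∃ u : Fin r → I → Polynomial ℂ,
      (∀ t s, (evm M (fun i => eval (fun _ => t) (L i))).mulVec (fun x => (u s x).eval t) = 0) ∧
      ∃ J, Wd (fun s x => (u s x).eval t₀) J ≠ 0 := by
  classical
  have hev : ∀ (t : ℂ) (f : MvPolynomial (Fin 1) ℂ),
      (aeval (fun _ => (Polynomial.X : Polynomial ℂ)) f).eval t = eval (fun _ => t) f := by
    intro t f
    have h : (Polynomial.evalRingHom t).comp (aeval (R := ℂ)
        (fun _ : Fin 1 => (Polynomial.X : Polynomial ℂ))).toRingHom =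
        (eval (fun _ => t) : MvPolynomial (Fin 1) ℂ →+* ℂ) := by
      apply MvPolynomial.ringHom_ext
      · intro c
        simp
      · intro i
        simp
    exact congrArg (fun F => F f) h
  let M' : Matrix Y I (MvPolynomial (Fin 1) ℂ) := M.map (aeval L)
  have hM' : ∀ v : Fin 1 → ℂ, evm M' v = evm M (fun i => eval (fun _ => v 0) (L i)) := by
    intro v
    ext y i
    simp only [M', evm, Matrix.map_apply]
    rw [eval_aeval_mv]
    congr 2
    funext i
    congr 2
    funext k
    rw [Subsingleton.elim k 0]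
  obtain ⟨K, D, hD, hMK, ⟨J, hJ⟩, -, -⟩ := exists_frame M' r 1 one_ne_zero
    (fun v _ => by rw [hM']; exact hr (v 0)) (fun _ => t₀) (by rw [hM']; exact hr t₀)
  refine ⟨fun s x => aeval (fun _ => (Polynomial.X : Polynomial ℂ)) (K s x), ?_, J, ?_⟩
  · intro t s
    have h1 := hM' (fun _ => t)
    rw [← h1]
    funext y
    have h4 := congrArg (eval (fun _ => t)) (congrFun (hMK s) y)
    simp only [Matrix.mulVec, dotProduct, map_sum, map_mul, Pi.zero_apply, map_zero] at h4
    simp only [hev]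
    simpa [Matrix.mulVec, dotProduct, evm, evv] using h4
  · simp only [hev]
    have h1 := Wd_eval K J (fun _ => t₀)
    rw [hJ, map_pow] at h1
    have h2 : Wd (fun s x => eval (fun _ => t₀) (K s x)) J = eval (fun _ => t₀) D ^ r := h1.symm
    rw [h2]
    exact pow_ne_zero _ hD

variable {n : ℕ}

/-- multiplication by a power of the second coordinate, as a linear map -/
def mtL (E : Bundle2 n) (j : ℤ) (b : ℕ) (j' : ℤ) : (Idx E.β j → ℂ) →ₗ[ℂ] (Idx E.β j' → ℂ) where
  toFun g := E.mt g b j'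
  map_add' g g' := by
    ext x
    simp only [Bundle2.mt, cf, Pi.add_apply]
    split_ifs <;> simp
  map_smul' c g := by
    ext x
    simp only [Bundle2.mt, cf, Pi.smul_apply, RingHom.id_apply, smul_eq_mul]
    split_ifs <;> simp

/-- the degree of a polynomial on an affine line -/
theorem line_poly (ν : MvPolynomial (Fin (n + 1)) ℂ) (D : ℤ) (hν : HomZ ν D)
    (R S : Fin (n + 1) → ℂ) : ∃ q : Polynomial ℂ, (∀ t, q.eval t = eval (R + t • S) ν) ∧
      (q ≠ 0 → (q.natDegree : ℤ) ≤ D) := by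
  refine ⟨aeval (fun l => Polynomial.C (R l) + Polynomial.X * Polynomial.C (S l)) ν,
    fun s => ?_, fun hq => ?_⟩
  · have h : (Polynomial.evalRingHom s).comp (aeval (R := ℂ)
        (fun l => Polynomial.C (R l) + Polynomial.X * Polynomial.C (S l))).toRingHom =
        (eval (R + s • S) : MvPolynomial (Fin (n + 1)) ℂ →+* ℂ) := by
      apply MvPolynomial.ringHom_ext
      · intro c
        simp
      · intro i
        simp
        ring
    exact congrArg (fun F => F ν) h
  · rcases hν with rfl | ⟨k, hk, hν⟩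
    · exact absurd (map_zero _) hq
    · rw [← hk]
      have h1 := MvPolynomial.aeval_natDegree_le (m := k) (n := 1) ν hν.totalDegree_le
        (fun l => Polynomial.C (R l) + Polynomial.X * Polynomial.C (S l)) (fun l => by
          compute_degree)
      rw [mul_one] at h1
      exact_mod_cast h1

theorem nu_pencil (E : Bundle2 n) (x₀ : Fin (n + 1) → ℂ) (G : ℕ) (hG : 2 ≤ G) (a b₀ j : ℤ)
    (hab : a - b₀ = G) (hj : j = -b₀ - 1)
    (P : (Fin G → Idx E.β j) → MvPolynomial (Fin (n + 1)) ℂ) (δ : ℤ)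
    (hP : ∀ J, HomZ (P J) (∑ s, (((J s).2 : ℕ) : ℤ) - δ))
    (R S : Fin (n + 1) → ℂ) (hli : ∀ t : ℂ, LinearIndependent ℂ ![x₀, R + t • S])
    (hwed : ∀ t : ℂ, ∀ u : Fin G → Idx E.β j → ℂ,
      (∀ s, Kr E j x₀ (R + t • S) (u s)) → ∃ κ : ℂ, ∀ J, Wd u J = κ * eval (R + t • S) (P J))
    (hdim : ∀ t : ℂ, Module.finrank ℂ (LinearMap.ker (Matrix.mulVecLin
      (evm (fam2 E j) (Sum.elim x₀ (R + t • S))))) = G)
    (t₁ : ℂ) (p q : ℤ)
    (hpq : E.SplitsOn x₀ (R + t₁ • S) p q) (hp : q ≤ p) (hq : p ≤ q + 1) (hs : p + q = a + b₀)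
    (F : Finset ℂ) (h : ℂ → ℕ) (hF : ∀ t ∈ F, ∃ p q : ℤ, E.SplitsOn x₀ (R + t • S) p q ∧
      p + q = a + b₀ ∧ 2 * (h t : ℤ) ≤ p - q) : δ + ∑ t ∈ F, (h t : ℤ) ≤ N0 G := by
  classical
  have hw₁ := hli t₁
  obtain ⟨g₁, g₂, hg₁', hg₂', hl⟩ := hpq
  have hg₁ : LineSec E x₀ (R + t₁ • S) p g₁ := ⟨hg₁', fun z hz => (hl z hz).1⟩
  have hg₂ : LineSec E x₀ (R + t₁ • S) q g₂ := ⟨hg₂', fun z hz => (hl z hz).2.1⟩
  have hz10 : (![1, 0] : Fin 2 → ℂ) ≠ 0 := by
    intro h
    have := congrFun h 0
    simp at this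
  have he1 : evv g₁ ![1, 0] ∈ E.fib x₀ := by
    have := (hl _ hz10).1
    simpa using this
  have he10 : evv g₁ ![1, 0] ≠ 0 := (hl _ hz10).2.2.ne_zero 0
  -- functionals
  obtain ⟨μ, lam, hμ, hinj⟩ : ∃ μ lam : Fin E.a → ℂ, μ ⬝ᵥ evv g₁ ![1, 0] ≠ 0 ∧
      ∀ u ∈ E.fib x₀, μ ⬝ᵥ u = 0 → lam ⬝ᵥ u = 0 → u = 0 := by
    obtain ⟨e', μ, lam, -, h1, -, -, -, h5⟩ :=
      (E.pull (m := 1) (lineMap x₀ (R + t₁ • S)) (lineMap_injective hw₁)).exists_dual
        (evv g₁ ![1, 0]) (by rw [fib_pull, lineMap_cons0]; exact he1) he10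
    refine ⟨μ, lam, ?_, ?_⟩
    · intro h
      exact one_ne_zero (h1.symm.trans h)
    · intro u hu h2 h3
      refine h5 u ?_ h2 h3
      rw [fib_pull, lineMap_cons0]
      exact hu
  set u₁ : ℕ := (G + 1) / 2 with hu₁
  set u₂ : ℕ := G / 2 with hu₂
  let fs : Fin G → Fin E.a → ℂ := fun s => if (s : ℕ) < u₁ then μ else lam
  let N : Fin G → Idx E.β j → ℂ := fun s => E.row j (bs G s) (fs s)
  have hN : ∀ s (g : Idx E.β j → ℂ), ∑ x, N s x * g x = fs s ⬝ᵥ E.cf g (bs G s) :=
    fun s g => E.row_sum _ _ g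
  let ν : MvPolynomial (Fin (n + 1)) ℂ := ∑ J : Fin G → Idx E.β j, C (∏ s, N s (J s)) * P J
  have hνhom : HomZ ν (N0 G - δ) := by
    apply homZ_of_scale
    intro t ht w
    simp only [ν, map_sum, map_mul, eval_C, Finset.mul_sum]
    refine Finset.sum_congr rfl fun J _ => ?_
    by_cases h0 : ∏ s, N s (J s) = 0
    · rw [h0]; ring
    · have h1 : ∑ s, (((J s).2 : ℕ) : ℤ) = N0 G := by
        unfold N0
        refine Finset.sum_congr rfl fun s _ => ?_
        have h2 := (Finset.prod_ne_zero_iff.1 h0) s (Finset.mem_univ s)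
        simp only [N, row] at h2
        by_contra h3
        apply h2
        rw [if_neg]
        intro h4
        exact h3 (by rw [h4])
      have h2 : eval (t • w) (P J) = t ^ (N0 G - δ) * eval w (P J) := by
        have h3 := hP J
        rw [h1] at h3
        rcases h3 with h3 | ⟨k, hk, h3⟩
        · rw [h3]
          simp
        · rw [Y208PT.eval_smul_hom h3, ← hk, zpow_natCast]
      rw [h2]
      ring
  -- the determinant of the rows on a frame
  have hdet : ∀ t : ℂ, ∀ u : Fin G → Idx E.β j → ℂ,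
      (∀ s, Kr E j x₀ (R + t • S) (u s)) → ∃ κ : ℂ, (∀ J, Wd u J = κ * eval (R + t • S) (P J)) ∧
        Matrix.det (Matrix.of fun a b => ∑ x, N b x * u a x) = κ * eval (R + t • S) ν := by
    intro t u hu
    obtain ⟨κ, hκ⟩ := hwed t u hu
    refine ⟨κ, hκ, ?_⟩
    rw [det_expand]
    simp only [ν, map_sum, map_mul, eval_C, Finset.mul_sum]
    refine Finset.sum_congr rfl fun J _ => ?_
    rw [hκ]
    ring
  have hsumN : ∀ (u : Fin G → Idx E.β j → ℂ) (c : Fin G → ℂ) t,
      ∑ x, N t x * (∑ a, c a • u a) x = ∑ a, c a * ∑ x, N t x * u a x := by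
    intro u c t
    simp only [Finset.sum_apply, Pi.smul_apply, smul_eq_mul, Finset.mul_sum]
    rw [Finset.sum_comm]
    refine Finset.sum_congr rfl fun a _ => Finset.sum_congr rfl fun x _ => ?_
    ring
  -- not zero at `t₁`
  have hν1 : eval (R + t₁ • S) ν ≠ 0 := by
    intro h0
    obtain ⟨u, hu1, hu2, -⟩ := exists_ker_basis _ (hdim t₁)
    obtain ⟨κ, -, hκ⟩ := hdet t₁ u hu2
    rw [h0, mul_zero, ← Matrix.exists_vecMul_eq_zero_iff] at hκ
    obtain ⟨c, hc0, hc⟩ := hκ
    apply hc0
    have h1 : ∀ t, ∑ x, N t x * (∑ a, c a • u a) x = 0 := by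
      intro t
      rw [hsumN]
      have h2 := congrFun hc t
      simpa [Matrix.vecMul, dotProduct] using h2
    have h2 : ∑ a, c a • u a = 0 := by
      refine kr_inj E hw₁ (b₀ := b₀) hg₁ hg₂ (fun z hz => (hl z hz).2.2) hp hq u₁ u₂ (by omega)
        (by omega) μ lam hμ hinj hj _ ?_ ?_ ?_
      · unfold Kr
        rw [Matrix.mulVec_sum]
        refine Finset.sum_eq_zero fun a _ => ?_
        rw [Matrix.mulVec_smul, hu2, smul_zero]
      · intro b hb
        have h3 := h1 ⟨b, by omega⟩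
        rw [hN] at h3
        simp only [fs, bs] at h3
        rw [if_pos hb, if_pos (by omega)] at h3
        exact h3
      · intro b hb
        have h3 := h1 ⟨b + u₁, by omega⟩
        rw [hN] at h3
        simp only [fs, bs] at h3
        rw [if_neg (by omega), if_neg (by omega), ← hu₁, Nat.add_sub_cancel] at h3
        exact h3
    have h3 := Fintype.linearIndependent_iff.1 hu1 c h2
    funext a
    exact h3 a
  obtain ⟨Q, hQ, hQd⟩ := line_poly ν _ hνhom R S
  have hQ0 : Q ≠ 0 := by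
    rintro rfl
    apply hν1
    rw [← hQ]
    simp
  -- the multiplicity at the jumping lines
  have hmul : ∀ t₀ ∈ F, (Polynomial.X - Polynomial.C t₀) ^ h t₀ ∣ Q := by
    intro t₀ ht₀
    obtain ⟨p', q', hpq', hs', hg'⟩ := hF t₀ ht₀
    let L : V2 n → MvPolynomial (Fin 1) ℂ :=
      Sum.elim (fun i => C (x₀ i)) (fun i => C (R i) + X 0 * C (S i))
    have hL : ∀ t : ℂ, (fun i => eval (fun _ => t) (L i)) = Sum.elim x₀ (R + t • S) := by
      intro t
      funext i
      rcases i with i | i <;> simp [L]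
    obtain ⟨u, hu, J₀, hJ₀⟩ := frame1 (fam2 E j) L G (fun t => by rw [hL]; exact hdim t) t₀
    have hu' : ∀ t s, Kr E j x₀ (R + t • S) (fun x => (u s x).eval t) := by
      intro t s
      have h1 := hu t s
      rw [hL] at h1
      exact h1
    let QM : Matrix (Fin G) (Fin G) (Polynomial ℂ) :=
      Matrix.of fun a b => ∑ x, Polynomial.C (N b x) * u a x
    have hQM : ∀ t, QM.map (Polynomial.eval t) =
        Matrix.of fun a b => ∑ x, N b x * (u a x).eval t := by
      intro t
      ext a b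
      simp only [QM, Matrix.map_apply, Matrix.of_apply]
      rw [Polynomial.eval_finsetSum]
      refine Finset.sum_congr rfl fun x _ => ?_
      rw [Polynomial.eval_mul, Polynomial.eval_C]
    obtain ⟨PJ, hPJ, -⟩ := line_poly (P J₀) _ (hP J₀) R S
    have hrel : Wd (fun s x => u s x) J₀ * Q = PJ * QM.det := by
      apply Polynomial.funext
      intro t
      obtain ⟨κ, hκ1, hκ2⟩ := hdet t _ (hu' t)
      have h1 : (QM.det).eval t = κ * Q.eval t := by
        have h2 : (QM.det).eval t = (QM.map (Polynomial.eval t)).det :=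
          RingHom.map_det (Polynomial.evalRingHom t) QM
        rw [h2, hQM, hQ, ← hκ2]
      have h2 : (Wd (fun s x => u s x) J₀).eval t = κ * PJ.eval t := by
        have h3 : (Wd (fun s x => u s x) J₀).eval t = Wd (fun s x => (u s x).eval t) J₀ :=
          Wd_map (Polynomial.evalRingHom t) _ _
        rw [h3, hκ1, hPJ]
      rw [Polynomial.eval_mul, Polynomial.eval_mul, h1, h2]
      ring
    have hdvd : (Polynomial.X - Polynomial.C t₀) ^ h t₀ ∣ QM.det := by
      -- the coordinates
      have hLI : LinearIndependent ℂ (fun s : Fin G => (fun x => (u s x).eval t₀ : Idx E.β j → ℂ)) := by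
        rw [Fintype.linearIndependent_iff]
        intro c hc
        by_contra hcon
        push Not at hcon
        obtain ⟨i, hi⟩ := hcon
        apply hJ₀
        unfold Wd
        rw [← Matrix.exists_vecMul_eq_zero_iff]
        refine ⟨c, fun h0 => hi (congrFun h0 i), ?_⟩
        funext b
        have h1 := congrFun hc (J₀ b)
        simpa [Matrix.vecMul, dotProduct, Finset.sum_apply] using h1
      let A := LinearMap.ker (Matrix.mulVecLin (evm (fam2 E j) (Sum.elim x₀ (R + t₀ • S))))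
      let ub : Fin G → A := fun s => ⟨fun x => (u s x).eval t₀, hu' t₀ s⟩
      have hub : LinearIndependent ℂ ub := by
        apply LinearIndependent.of_comp A.subtype
        exact hLI
      have hcard : Fintype.card (Fin G) = Module.finrank ℂ A := by
        rw [Fintype.card_fin]
        exact (hdim t₀).symm
      have : Nonempty (Fin G) := ⟨⟨0, by omega⟩⟩
      let bA := basisOfLinearIndependentOfCardEqFinrank hub hcard
      have hbA : ∀ s, bA s = ub s := fun s => by
        simp [bA]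
      let V : Submodule ℂ (Fin G → ℂ) := LinearMap.ker (Matrix.vecMulLinear
        (QM.map (Polynomial.eval t₀)))
      refine det_pow_dvd t₀ (h t₀) QM V ?_ (fun x hx => hx)
      -- the sections which vanish to high order
      let A' := LinearMap.ker (Matrix.mulVecLin (evm (fam2 E (j - u₁)) (Sum.elim x₀ (R + t₀ • S))))
      have hA' : (h t₀) ≤ Module.finrank ℂ A' := by
        have h1 := finrank_fam2 E (hli t₀) (j - u₁) hpq'
        have h2 : Module.finrank ℂ A' = (p' + (j - u₁) + 1).toNat + (q' + (j - u₁) + 1).toNat := h1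
        omega
      have hmem : ∀ g : A', (mtL E (j - u₁) u₁ j) g ∈ A := by
        intro g
        exact kr_mt E (hli t₀) g.2 u₁ 0 (by push_cast; ring)
      let Θ₁ : A' →ₗ[ℂ] A := LinearMap.codRestrict A ((mtL E (j - u₁) u₁ j).comp A'.subtype) hmem
      have hΘV : ∀ g : A', bA.equivFun (Θ₁ g) ∈ V := by
        intro g
        have h1 : ∑ s, bA.equivFun (Θ₁ g) s • ub s = Θ₁ g := by
          have h2 := bA.sum_equivFun (Θ₁ g)
          simpa only [hbA] using h2
        have h2 : ∑ s, bA.equivFun (Θ₁ g) s • (fun x => (u s x).eval t₀ : Idx E.β j → ℂ) =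
            E.mt (g : Idx E.β (j - u₁) → ℂ) u₁ j := by
          have h3 := congrArg A.subtype h1
          rw [map_sum] at h3
          exact h3
        have h3 : Matrix.vecMul (bA.equivFun (Θ₁ g)) (QM.map (Polynomial.eval t₀)) = 0 := by
          rw [hQM]
          funext b
          have h4 := hsumN (fun s x => (u s x).eval t₀) (bA.equivFun (Θ₁ g)) b
          rw [h2, hN, cf_mt_lt, dotProduct_zero] at h4
          · simp only [Matrix.vecMul, dotProduct, Matrix.of_apply, Pi.zero_apply]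
            exact h4.symm
          · simp only [bs]
            have := b.2
            split_ifs <;> omega
        exact h3
      let Θ : A' →ₗ[ℂ] V := LinearMap.codRestrict V (bA.equivFun.toLinearMap.comp Θ₁) hΘV
      have hΘ : Function.Injective Θ := by
        rw [injective_iff_map_eq_zero]
        intro g hg
        have h1 : bA.equivFun (Θ₁ g) = 0 := congrArg V.subtype hg
        have h2 : Θ₁ g = 0 := by
          rwa [LinearEquiv.map_eq_zero_iff] at h1
        have h3 : E.mt (g : Idx E.β (j - u₁) → ℂ) u₁ j = 0 := congrArg A.subtype h2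
        by_contra hne
        exact mt_ne_zero E (j' := j) (g : Idx E.β (j - u₁) → ℂ) u₁ 0 (by push_cast; ring)
          (fun h0 => hne (Subtype.ext h0)) h3
      exact hA'.trans (LinearMap.finrank_le_finrank_of_injective hΘ)
    have hcop : IsCoprime ((Polynomial.X - Polynomial.C t₀) ^ h t₀)
        (Wd (fun s x => u s x) J₀ : Polynomial ℂ) := by
      apply IsCoprime.pow_left
      rw [(Polynomial.irreducible_X_sub_C t₀).coprime_iff_not_dvd, Polynomial.dvd_iff_isRoot,
        Polynomial.IsRoot.def]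
      have h3 : (Wd (fun s x => u s x) J₀).eval t₀ = Wd (fun s x => (u s x).eval t₀) J₀ :=
        Wd_map (Polynomial.evalRingHom t₀) _ _
      rw [h3]
      exact hJ₀
    apply hcop.dvd_of_dvd_mul_left
    rw [hrel]
    exact hdvd.mul_left _
  have hprod : (∏ t ∈ F, (Polynomial.X - Polynomial.C t) ^ h t) ∣ Q := by
    apply Finset.prod_dvd_of_coprime
    · intro s _ t _ hst
      exact (Polynomial.pairwise_coprime_X_sub_C (s := fun x : ℂ => x) (fun _ _ h => h) hst).pow
    · exact hmul
  have h1 := Polynomial.natDegree_le_of_dvd hprod hQ0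
  rw [Polynomial.natDegree_prod_of_monic _ _ (fun t _ => (Polynomial.monic_X_sub_C t).pow _)] at h1
  simp only [Polynomial.natDegree_pow, Polynomial.natDegree_X_sub_C, mul_one] at h1
  have h2 := hQd hQ0
  have h3 : (∑ t ∈ F, (h t : ℤ)) ≤ (Q.natDegree : ℤ) := by exact_mod_cast h1
  linarith

/-- the bound for the degree in the first point, from a pencil of lines -/
theorem PlkL.d1_pencil {E : Bundle2 n} {j : ℤ} {G : ℕ} (K : PlkL E j G) (hG : 2 ≤ G) (a b₀ : ℤ)
    (hab : a - b₀ = G) (hj : j = -b₀ - 1) (x₀ : Fin (n + 1) → ℂ) (R S : Fin (n + 1) → ℂ)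
    (hok : ∀ t : ℂ, Ok E j G x₀ (R + t • S))
    (t₁ : ℂ) (p q : ℤ)
    (hpq : E.SplitsOn x₀ (R + t₁ • S) p q) (hp : q ≤ p) (hq : p ≤ q + 1) (hs : p + q = a + b₀)
    (F : Finset ℂ) (h : ℂ → ℕ) (hF : ∀ t ∈ F, ∃ p q : ℤ, E.SplitsOn x₀ (R + t • S) p q ∧
      p + q = a + b₀ ∧ 2 * (h t : ℤ) ≤ p - q) : K.d1 + ∑ t ∈ F, (h t : ℤ) ≤ N0 G := by
  have hev : ∀ (w : Fin (n + 1) → ℂ) (P : MvPolynomial (V2 n) ℂ),
      eval w (aeval (Sum.elim X (fun i => C (x₀ i))) P : MvPolynomial (Fin (n + 1)) ℂ) =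
        eval (Sum.elim w x₀) P := by
    intro w P
    rw [eval_aeval_mv]
    congr 1
    congr 1
    funext i
    rcases i with i | i <;> simp
  refine nu_pencil E x₀ G hG a b₀ j hab hj
    (fun J => aeval (Sum.elim X (fun i => C (x₀ i))) (K.pi (rv ∘ J))) K.d1 ?_ R S
    (fun t => (hok t).1) ?_ (fun t => (hok t).2) t₁ p q hpq hp hq hs F h hF
  · intro J
    apply homZ_of_scale
    intro t ht w
    rw [hev, hev]
    have h1 := (K.homY (rv ∘ J)).eval t (Sum.elim w x₀)
    rw [wtY_act] at h1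
    refine Eq.trans h1 ?_
    have h2 : ∑ s, (E.β ((rv ∘ J) s).1 + j - ((((rv ∘ J) s).2 : ℕ) : ℤ)) =
        ∑ s, (((J s).2 : ℕ) : ℤ) := by
      refine Finset.sum_congr rfl fun s _ => ?_
      have h3 := rv_val (J s)
      simp only [Function.comp_apply]
      rw [h3]
      simp only [rv]
      ring
    rw [h2]
  · intro t u hu
    obtain ⟨κ, hκ⟩ := K.wed (R + t • S) x₀ (hok t).symm (fun s => u s ∘ rv)
      (fun s => kr_rv E (hok t).1 (hu s))
    refine ⟨κ, fun J => ?_⟩
    rw [hev, ← hκ]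
    unfold Wd
    congr 1
    ext a b
    simp [rv_rv]

end H932L
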