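import Pool.Agent.H932.L.Main
import Pool.Agent.H932.L.Pencil

/-!
# The number of jumping lines in a pencil (coordinate version)
-/

open MvPolynomial H960VB H960VB.Bundle2 Y208PT Pool.Agent.H106R3.VB H932V H932W

namespace H932L

theorem N0_le (m : ℕ) : 4 * (N0 m : ℤ) ≤ ((m : ℤ) - 1) * ((m : ℤ) - 1) := by
  have hN := N0_eq m
  rcases Nat.even_or_odd' m with ⟨k, hk | hk⟩
  · have e1 : (m + 1) / 2 = k := by omega
    have e2 : m / 2 = k := by omega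
    rw [e1, e2] at hN
    have e3 : (m : ℤ) = 2 * k := by omega
    rw [e3]
    nlinarith
  · have e1 : (m + 1) / 2 = k + 1 := by omega
    have e2 : m / 2 = k := by omega
    rw [e1, e2] at hN
    push_cast at hN
    have e3 : (m : ℤ) = 2 * k + 1 := by omega
    rw [e3]
    nlinarith

/-- **The number of jumping lines in a pencil.** -/
theorem pencil_le {m : ℕ} {E : Bundle2 (m + 1)} {c₁ : ℤ} (H : HypA E c₁) (hm : 3 ≤ m)
    {a' b' : ℤ} (hA : E.SplitsOn (Fin.cons 1 0) (Fin.cons 0 (Fin.cons 1 0)) a' b')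
    (hg : 0 ≤ a' - b') (hg2 : a' - b' < m)
    (x₀ R S : Fin (m + 2) → ℂ) (hli : ∀ t : ℂ, LinearIndependent ℂ ![x₀, R + t • S])
    (hgap : ∀ t : ℂ, ∃ p q : ℤ, E.SplitsOn x₀ (R + t • S) p q ∧ |p - q| ≤ m)
    (t₁ : ℂ) (p q : ℤ) (hpq : E.SplitsOn x₀ (R + t₁ • S) p q) (hp : q ≤ p) (hq : p ≤ q + 1)
    (F : Finset ℂ) (h : ℂ → ℕ)
    (hF : ∀ t ∈ F, ∃ p q : ℤ, E.SplitsOn x₀ (R + t • S) p q ∧ 2 * (h t : ℤ) ≤ p - q) :
    4 * ∑ t ∈ F, (h t : ℤ) ≤ m * (m - 2 * (a' - b')) + 1 := by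
  classical
  have he0 : (Fin.cons 1 0 : Fin (m + 2) → ℂ) ≠ 0 := (li_coord m).ne_zero 0
  have heA : ∀ k : Fin m, (Fin.cons 1 0 : Fin (m + 2) → ℂ) k.succ.succ = 0 := by
    intro k
    simp
  obtain ⟨a, ha⟩ := (H _ he0 heA).parity (by omega) he0
  push_cast at ha
  obtain ⟨b₀, hb₀⟩ : ∃ b₀ : ℤ, b₀ = a - m := ⟨_, rfl⟩
  have hc : c₁ = a + b₀ := by omega
  have hab : a - b₀ = m := by omega
  have hok : ∀ w, LinearIndependent ℂ ![(Fin.cons 1 0 : Fin (m + 2) → ℂ), w] →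
      Ok E (-b₀ - 1) m (Fin.cons 1 0) w := fun w hw => H.ok hc hab rfl ⟨heA, hw⟩
  obtain ⟨K⟩ := exists_plkL (by omega) E (H _ he0 heA).hc (-b₀ - 1) m (by omega)
    (hok _ (li_coord m))
  obtain ⟨ε, hε, hε0⟩ := exists_fib E he0
  obtain ⟨w₂, hw₂, g, hgs, hge⟩ := H.sec (by omega) hc hab he0 heA hε hε0
  obtain ⟨f, hf, -, hfε'⟩ := mem_of_lineSec E hw₂ hgs
  have hfε := hfε'.trans hge
  have hf0 : f ≠ 0 := by
    rintro rfl
    apply hε0
    rw [← hfε]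
    ext i
    simp [cf]
  obtain ⟨w₁, hw₁, p₁, q₁, hpq₁, hqp₁, hpq1₁⟩ := (H _ he0 heA).low (by omega) he0
  have hs₁ := (H.ty hc hab ⟨heA, hw₁⟩ hpq₁).2.2
  have hd2 := K.d2_bound (by omega) a b₀ (by omega) rfl _ hok w₁ hw₁ p₁ q₁
    hpq₁ hqp₁ hpq1₁ hs₁ w₂ hw₂ f hf hf0
  have hN := N0_le m
  have hsum : ∀ t : ℂ, ∀ p q : ℤ, E.SplitsOn x₀ (R + t • S) p q → p + q = a + b₀ := by
    intro t p q hpq
    rw [(H _ he0 heA).hc _ _ (hli t) p q hpq, hc]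
  have hd1 := K.d1_pencil (by omega) a b₀ hab rfl x₀ R S (by
      intro t
      refine ⟨hli t, ?_⟩
      obtain ⟨p, q, hpq, hab'⟩ := hgap t
      have h1 := hsum t p q hpq
      rw [finrank_fam2 E (hli t) _ hpq]
      rw [abs_le] at hab'
      omega) t₁ p q hpq hp hq (hsum t₁ p q hpq) F h (by
      intro t ht
      obtain ⟨p, q, hpq, h1⟩ := hF t ht
      exact ⟨p, q, hpq, hsum t p q hpq, h1⟩)
  by_contra hcon
  push Not at hcon
  have hm4 : (3 : ℤ) ≤ m := by omega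
  refine core H (by omega) hA hg hg2 hc hab rfl K ?_ ?_
  · nlinarith
  · nlinarith

/-- **The gap of the line `A`.** -/
theorem mid_le {m : ℕ} {E : Bundle2 (m + 1)} {c₁ : ℤ} (H : HypA E c₁) (hm : 3 ≤ m)
    {a' b' : ℤ} (hA : E.SplitsOn (Fin.cons 1 0) (Fin.cons 0 (Fin.cons 1 0)) a' b')
    (hg : 0 ≤ a' - b') (hg2 : a' - b' < m) :
    4 * ((m / 2 : ℕ) : ℤ) ≤ m * (m - 2 * (a' - b')) + 1 := by
  classical
  have he0 : (Fin.cons 1 0 : Fin (m + 2) → ℂ) ≠ 0 := (li_coord m).ne_zero 0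
  have heA : ∀ k : Fin m, (Fin.cons 1 0 : Fin (m + 2) → ℂ) k.succ.succ = 0 := by
    intro k
    simp
  obtain ⟨ε, hε, hε0⟩ := exists_fib E he0
  obtain ⟨w₂, hw₂, p₂, q₂, hpq₂, hg₂, -⟩ := (H _ he0 heA).dir (by omega) he0 hε hε0
  obtain ⟨w₁, hw₁, p₁, q₁, hpq₁, hqp₁, hpq1₁⟩ := (H _ he0 heA).low (by omega) he0
  push_cast at hg₂
  have hli : ∀ t : ℂ, LinearIndependent ℂ ![(Fin.cons 1 0 : Fin (m + 2) → ℂ),
      w₂ + t • (w₁ - w₂)] := by
    intro t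
    by_contra hcon
    rw [LinearIndependent.pair_iff' he0] at hcon
    push Not at hcon
    obtain ⟨c, hc⟩ := hcon
    by_cases ht : t = 0
    · subst ht
      rw [zero_smul, add_zero] at hc
      rw [LinearIndependent.pair_iff' he0] at hw₂
      exact hw₂ c hc
    · have h1 : w₁ = (t⁻¹ * c) • (Fin.cons 1 0 : Fin (m + 2) → ℂ) + (t⁻¹ * (t - 1)) • w₂ := by
        have h2 : t • w₁ = c • (Fin.cons 1 0 : Fin (m + 2) → ℂ) + (t - 1) • w₂ := by
          rw [hc]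
          module
        have h3 : w₁ = t⁻¹ • (t • w₁) := by
          rw [smul_smul, inv_mul_cancel₀ ht, one_smul]
        rw [h3, h2, smul_add, smul_smul, smul_smul]
      have h2 : E.SplitsOn (Fin.cons 1 0) w₁ p₂ q₂ :=
        SplitsOn.lin hpq₂ 1 0 _ _ (by simp) h1 hw₁
      have h3 := type_unique E hw₁ h2 hpq₁
      rw [hg₂, abs_of_nonneg (by omega), abs_of_nonneg (by omega)] at h3
      omega
  have h1 := pencil_le H hm hA hg hg2 (Fin.cons 1 0) w₂ (w₁ - w₂) hli (by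
      intro t
      obtain ⟨p, q, hpq⟩ := splitsOn_exists E (hli t)
      refine ⟨p, q, hpq, ?_⟩
      have h2 := (H _ he0 heA).gap _ (hli t) p q hpq
      have h3 := (H _ he0 heA).gap _ (hli t) q p (SplitsOn.swap hpq)
      push_cast at h2 h3
      rw [abs_le]
      constructor <;> omega) 1 p₁ q₁ (by
      have h4 : w₂ + (1 : ℂ) • (w₁ - w₂) = w₁ := by module
      rw [h4]
      exact hpq₁) hqp₁ hpq1₁ {0} (fun _ => m / 2) (by
      intro t ht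
      rw [Finset.mem_singleton] at ht
      subst ht
      refine ⟨p₂, q₂, ?_, ?_⟩
      · rw [zero_smul, add_zero]
        exact hpq₂
      · omega)
  simpa using h1

end H932L
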