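import Pool.Agent.H932.L.Main

/-!
# Lines of gap one which meet lines of gap at least five, on `P^4` (coordinate version)
-/

open MvPolynomial H960VB H960VB.Bundle2 Y208PT Pool.Agent.H106R3.VB H932V H932W

namespace H932L

theorem PlkL.d1_ne_zero {n : ℕ} (E : Bundle2 n) (a : ℤ) (K : PlkL E (-(a - 2)) 3)
    (x₀ : Fin (n + 1) → ℂ)
    (hok : ∀ w, LinearIndependent ℂ ![x₀, w] → Ok E (-(a - 2)) 3 x₀ w)
    (hcase : ∀ w, LinearIndependent ℂ ![x₀, w] →
      E.SplitsOn x₀ w (a - 1) (a - 2) ∨ E.SplitsOn x₀ w a (a - 3))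
    (w₁ : Fin (n + 1) → ℂ) (hw₁ : LinearIndependent ℂ ![x₀, w₁])
    (hs₁ : E.SplitsOn x₀ w₁ (a - 1) (a - 2))
    (hdir : ∀ ε ∈ E.fib x₀, ε ≠ 0 → ∃ w, LinearIndependent ℂ ![x₀, w] ∧
      ∃ g, LineSec E x₀ w a g ∧ evv g ![1, 0] = ε) : K.d1 ≠ 0 := by
  intro h0
  have hev : ∀ (w : Fin (n + 1) → ℂ) (P : MvPolynomial (V2 n) ℂ),
      eval w (aeval (Sum.elim X (fun i => C (x₀ i))) P : MvPolynomial (Fin (n + 1)) ℂ) =
        eval (Sum.elim w x₀) P := by
    intro w P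
    rw [eval_aeval_mv]
    congr 1
    congr 1
    funext i
    rcases i with i | i <;> simp
  refine no_zero E a (fun J => aeval (Sum.elim X (fun i => C (x₀ i))) (K.pi (rv ∘ J))) ?_ x₀ ?_
    hcase w₁ hw₁ hs₁ hdir
  · intro J
    apply homZ_of_scale
    intro t ht w
    rw [hev, hev]
    have h1 := (K.homY (rv ∘ J)).eval t (Sum.elim w x₀)
    rw [wtY_act] at h1
    refine Eq.trans h1 ?_
    have h2 : ∑ s, (E.β ((rv ∘ J) s).1 + -(a - 2) - ((((rv ∘ J) s).2 : ℕ) : ℤ)) =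
        ∑ s, (((J s).2 : ℕ) : ℤ) := by
      refine Finset.sum_congr rfl fun s _ => ?_
      have h3 := rv_val (J s)
      simp only [Function.comp_apply]
      rw [h3]
      simp only [rv]
      ring
    rw [h2, h0, sub_zero]
  · intro w hw u hu
    obtain ⟨κ, hκ⟩ := K.wed w x₀ (hok w hw).symm (fun s => u s ∘ rv) (fun s => kr_rv E hw (hu s))
    refine ⟨κ, fun J => ?_⟩
    rw [hev, ← hκ]
    unfold Wd
    congr 1
    ext a b
    simp [rv_rv]

/-- **The coordinate version**, `n = 4`. -/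
theorem coord_falseL4 {E : Bundle2 (3 + 1)} {c₁ : ℤ} (H : HypA E c₁)
    {a' b' : ℤ} (hA : E.SplitsOn (Fin.cons 1 0) (Fin.cons 0 (Fin.cons 1 0)) a' b')
    (hg : a' - b' = 1) : False := by
  classical
  have he0 : (Fin.cons 1 0 : Fin (3 + 2) → ℂ) ≠ 0 := (li_coord 3).ne_zero 0
  have heA : ∀ k : Fin 3, (Fin.cons 1 0 : Fin (3 + 2) → ℂ) k.succ.succ = 0 := by
    intro k
    simp
  obtain ⟨a, ha⟩ := (H _ he0 heA).parity (by omega) he0
  push_cast at ha
  have hc : c₁ = a + (a - 3) := by omega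
  have hab : a - (a - 3) = (3 : ℕ) := by push_cast; ring
  have hok : ∀ w, LinearIndependent ℂ ![(Fin.cons 1 0 : Fin (3 + 2) → ℂ), w] →
      Ok E (-(a - 2)) 3 (Fin.cons 1 0) w := fun w hw => H.ok hc hab (by ring) ⟨heA, hw⟩
  obtain ⟨K⟩ := exists_plkL (by omega) E (H _ he0 heA).hc (-(a - 2)) 3 (by push_cast; omega)
    (hok _ (li_coord 3))
  obtain ⟨ε, hε, hε0⟩ := exists_fib E he0
  obtain ⟨w₂, hw₂, g, hgs, hge⟩ := H.sec (by omega) hc hab he0 heA hε hε0
  obtain ⟨f, hf, -, hfε'⟩ := mem_of_lineSec E hw₂ hgs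
  have hfε := hfε'.trans hge
  have hf0 : f ≠ 0 := by
    rintro rfl
    apply hε0
    rw [← hfε]
    ext i
    simp [cf]
  obtain ⟨w₁, hw₁, p, q, hpq, hqp, hpq1⟩ := (H _ he0 heA).low (by omega) he0
  have hs := (H.ty hc hab ⟨heA, hw₁⟩ hpq).2.2
  have hd2 := K.d2_bound (by omega) a (a - 3) hab (by ring) _ hok w₁ hw₁ p q
    hpq hqp hpq1 hs w₂ hw₂ f hf hf0
  have hd1 := K.d1_bound (by omega) a (a - 3) hab (by ring) _ hok w₁ hw₁ p q
    hpq hqp hpq1 hs w₂ hw₂ f hf hf0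
  rw [N0_three] at hd1 hd2
  have hpa : p = a - 1 := by omega
  have hqa : q = a - 2 := by omega
  rw [hpa, hqa] at hpq
  have hne : K.d1 ≠ 0 := by
    refine K.d1_ne_zero E a _ hok ?_ w₁ hw₁ hpq (fun ε hε hε0 => H.sec (by omega) hc hab he0 heA
      hε hε0)
    intro w hw
    obtain ⟨p', q', hpq'⟩ := splitsOn_exists E hw
    obtain ⟨h1, h2, h3⟩ := H.ty hc hab ⟨heA, hw⟩ hpq'
    have h4 := (H _ he0 heA).gap w hw p' q' hpq'
    have h5 := (H _ he0 heA).gap w hw q' p' (SplitsOn.swap hpq')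
    push_cast at h4 h5
    have h6 : p' = a ∨ p' = a - 1 ∨ p' = a - 2 ∨ p' = a - 3 := by omega
    rcases h6 with h6 | h6 | h6 | h6
    · right
      have h7 : q' = a - 3 := by omega
      rwa [h6, h7] at hpq'
    · left
      have h7 : q' = a - 2 := by omega
      rwa [h6, h7] at hpq'
    · left
      have h7 : q' = a - 1 := by omega
      rw [h6, h7] at hpq'
      exact SplitsOn.swap hpq'
    · right
      have h7 : q' = a := by omega
      rw [h6, h7] at hpq'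
      exact SplitsOn.swap hpq'
  refine core H (by omega) hA (by omega) (by push_cast; omega) hc hab (by ring) K ?_ ?_
  · rw [hg]
    push_cast
    omega
  · push_cast
    omega

end H932L
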